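import Pool.Agent.Helper46.K3.Sort

/-! # From bounds for the number of lethal triples to the frozen conclusion -/

namespace K3

open Finset

set_option linter.unusedSectionVars false

/-- set of the first `m` elements of `Fin n` -/
theorem card_lt_filter' {n m : ℕ} (hm : m ≤ n) :
    ((univ : Finset (Fin n)).filter (fun i => i.val < m)).card = m := by
  have : ((univ : Finset (Fin n)).filter (fun i => i.val < m)).card
      = ((univ : Finset (Fin m)).map (Fin.castLEEmb hm)).card := by
    congr 1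
    ext i
    simp only [mem_filter, mem_univ, true_and, mem_map]
    constructor
    · intro hi
      exact ⟨⟨i.val, hi⟩, by ext; simp⟩
    · rintro ⟨j, rfl⟩
      simp
  rw [this, card_map, card_univ, Fintype.card_fin]

theorem ncard_eq_cnt' {n : ℕ} (x : Fin n → ℝ) (k : ℕ) :
    Set.ncard {V : Finset (Fin n) | V.card = k ∧ (1 : ℝ) ≤ ∑ i ∈ V, x i} = cnt 1 k x univ := by
  unfold cnt
  rw [← Set.ncard_coe_finset]
  congr 1
  ext V
  simp [mem_powersetCard]

/-- the number of lethal triples when `1 / j` is put on the first `m` elements, at least -/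
def BB (j n m : ℕ) : ℕ :=
  match j with
  | 1 => n.choose 3 - (n - m).choose 3
  | 2 => m.choose 2 * (n - m) + m.choose 3
  | 3 => m.choose 3
  | _ => 0

/-- `V` meets the first `m` elements in at least `j` elements -/
theorem lethal_of_card {n m j : ℕ} (hj : 0 < j) (V : Finset (Fin n))
    (hV : j ≤ (V.filter (fun i => i.val < m)).card) :
    (1 : ℝ) ≤ ∑ i ∈ V, (if i.val < m then (1 : ℝ) / (j : ℝ) else 0) := by
  rw [← sum_filter, sum_const, nsmul_eq_mul]
  have hj' : (0 : ℝ) < j := by exact_mod_cast hj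
  rw [mul_one_div, le_div_iff₀ hj', one_mul]
  exact_mod_cast hV

theorem BB_one {n m : ℕ} (hm : m ≤ n) :
    BB 1 n m ≤ cnt 1 3 (fun i : Fin n => if i.val < m then (1 : ℝ) / ((1 : ℕ) : ℝ) else 0) univ := by
  classical
  have h1 : n.choose 3 = (powersetCard 3 (univ : Finset (Fin n))).card := by
    rw [card_powersetCard, card_univ, Fintype.card_fin]
  have h2 : (n - m).choose 3
      = (powersetCard 3 ((univ : Finset (Fin n)).filter (fun i => ¬ i.val < m))).card := by
    rw [card_powersetCard, filter_not, card_sdiff_of_subset (filter_subset _ _), card_lt_filter' hm,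
      card_univ, Fintype.card_fin]
  unfold BB
  simp only
  rw [Nat.sub_le_iff_le_add, h1, h2]
  unfold cnt
  rw [← card_filter_add_card_filter_not (s := powersetCard 3 (univ : Finset (Fin n)))
    (fun V => (1 : ℝ) ≤ ∑ i ∈ V, (if i.val < m then (1 : ℝ) / ((1 : ℕ) : ℝ) else 0))]
  gcongr
  intro V hV
  rw [mem_filter, mem_powersetCard] at hV
  rw [mem_powersetCard]
  refine ⟨?_, hV.1.2⟩
  intro i hi
  rw [mem_filter]
  refine ⟨mem_univ _, ?_⟩
  intro him
  apply hV.2
  have := single_le_sum (f := fun i : Fin n => (if i.val < m then (1 : ℝ) / ((1 : ℕ) : ℝ) else 0))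
    (s := V) (fun j _ => by split_ifs <;> simp) hi
  simpa [him] using this

theorem BB_three {n m : ℕ} (hm : m ≤ n) :
    BB 3 n m ≤ cnt 1 3 (fun i : Fin n => if i.val < m then (1 : ℝ) / ((3 : ℕ) : ℝ) else 0) univ := by
  unfold BB cnt
  simp only
  rw [← card_lt_filter' hm, ← card_powersetCard]
  apply card_le_card
  intro V hV
  rw [mem_powersetCard] at hV
  rw [mem_filter, mem_powersetCard]
  refine ⟨⟨subset_univ _, hV.2⟩, ?_⟩
  rw [card_lt_filter' hm]
  apply lethal_of_card (by norm_num)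
  rw [filter_true_of_mem, hV.2]
  intro i hi
  exact (mem_filter.1 (hV.1 hi)).2

theorem BB_two {n m : ℕ} (hm : m ≤ n) :
    BB 2 n m ≤ cnt 1 3 (fun i : Fin n => if i.val < m then (1 : ℝ) / ((2 : ℕ) : ℝ) else 0) univ := by
  classical
  set A := (univ : Finset (Fin n)).filter (fun i => i.val < m) with hA
  set B := (univ : Finset (Fin n)).filter (fun i => ¬ i.val < m) with hB
  have hAc : A.card = m := card_lt_filter' hm
  have hBc : B.card = n - m := by
    rw [hB, filter_not, card_sdiff_of_subset (filter_subset _ _), card_lt_filter' hm,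
      card_univ, Fintype.card_fin]
  have hdis : Disjoint A B := disjoint_filter_filter_not _ _ _
  set X := (powersetCard 2 A ×ˢ B).image (fun p => insert p.2 p.1) with hX
  have hXc : X.card = m.choose 2 * (n - m) := by
    rw [hX, card_image_of_injOn, card_product, card_powersetCard, hAc, hBc]
    rintro ⟨V, b⟩ hp ⟨V', b'⟩ hp' heq
    simp only [coe_product, Set.mem_prod, mem_coe, mem_powersetCard] at hp hp'
    simp only at heq
    have hbV : b ∉ V := fun hh => disjoint_left.1 hdis (hp.1.1 hh) hp.2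
    have hbV' : b' ∉ V' := fun hh => disjoint_left.1 hdis (hp'.1.1 hh) hp'.2
    have hbb : b = b' := by
      have : b ∈ insert b' V' := heq ▸ mem_insert_self b V
      rcases mem_insert.1 this with h1 | h1
      · exact h1
      · exact absurd hp.2 (disjoint_left.1 hdis (hp'.1.1 h1))
    subst hbb
    have : V = V' := by
      have := congrArg (fun W => W.erase b) heq
      simpa [erase_insert hbV, erase_insert hbV'] using this
    rw [this]
  have hdX : Disjoint X (powersetCard 3 A) := by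
    rw [disjoint_left]
    intro W hW hW2
    obtain ⟨⟨V, b⟩, hp, rfl⟩ := mem_image.1 hW
    rw [mem_product] at hp
    exact disjoint_left.1 hdis ((mem_powersetCard.1 hW2).1 (mem_insert_self b V)) hp.2
  have hcard : BB 2 n m = (X ∪ powersetCard 3 A).card := by
    rw [card_union_of_disjoint hdX, hXc, card_powersetCard, hAc]
    rfl
  rw [hcard]
  unfold cnt
  apply card_le_card
  intro W hW
  rw [mem_filter, mem_powersetCard]
  rcases mem_union.1 hW with h1 | h1
  · obtain ⟨⟨V, b⟩, hp, rfl⟩ := mem_image.1 h1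
    rw [mem_product, mem_powersetCard] at hp
    obtain ⟨⟨hVA, hVc⟩, hb⟩ := hp
    have hbV : b ∉ V := fun hh => disjoint_left.1 hdis (hVA hh) hb
    refine ⟨⟨subset_univ _, ?_⟩, ?_⟩
    · rw [card_insert_of_notMem hbV, hVc]
    · apply lethal_of_card (by norm_num)
      rw [← hVc]
      apply card_le_card
      intro i hi
      rw [mem_filter]
      exact ⟨mem_insert_of_mem hi, (mem_filter.1 (hVA hi)).2⟩
  · rw [mem_powersetCard] at h1
    refine ⟨⟨subset_univ _, h1.2⟩, ?_⟩
    apply lethal_of_card (by norm_num)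
    rw [filter_true_of_mem, h1.2]
    · norm_num
    · intro i hi
      exact (mem_filter.1 (h1.1 hi)).2

theorem BB_le {n m j : ℕ} (hj : j = 1 ∨ j = 2 ∨ j = 3) (hm : m ≤ n) :
    BB j n m ≤ cnt 1 3 (fun i : Fin n => if i.val < m then (1 : ℝ) / (j : ℝ) else 0) univ := by
  rcases hj with rfl | rfl | rfl
  · exact BB_one hm
  · exact BB_two hm
  · exact BB_three hm

/-- the frozen conclusion from a bound by one of the three numbers -/
theorem frozen_of_BB (n : ℕ) (h : ℝ) (x : Fin n → ℝ)
    (H : ∃ j, (j = 1 ∨ j = 2 ∨ j = 3) ∧ cnt 1 3 x univ ≤ BB j n (min n ⌊h * (j : ℝ)⌋₊)) :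
    ∃ j : ℕ, 0 < j ∧
      Set.ncard {V : Finset (Fin n) | V.card = 3 ∧ (1 : ℝ) ≤ ∑ i ∈ V, x i} ≤
      Set.ncard {V : Finset (Fin n) | V.card = 3 ∧ (1 : ℝ) ≤ ∑ i ∈ V,
            (if i.val < min n ⌊h * (j : ℝ)⌋₊ then (1 : ℝ) / (j : ℝ) else 0)} := by
  obtain ⟨j, hj, hb⟩ := H
  refine ⟨j, by omega, ?_⟩
  rw [ncard_eq_cnt', ncard_eq_cnt']
  exact hb.trans (BB_le hj (min_le_left _ _))

/-- reduction of the frozen statement for `k = 3` to non-increasing sequences -/
theorem frozen_of_sorted (n : ℕ) (h : ℝ)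
    (H : ∀ g : ℕ → ℝ, Antitone g → (∀ i, 0 ≤ g i) → (∀ i, n ≤ i → g i = 0) →
      ∑ i ∈ range n, g i = h →
      ∃ j, (j = 1 ∨ j = 2 ∨ j = 3) ∧ (tri 1 g n).card ≤ BB j n (min n ⌊h * (j : ℝ)⌋₊))
    (x : Fin n → ℝ) (hx : ∀ i, 0 ≤ x i) (hsum : ∑ i, x i = h) :
    ∃ j : ℕ, 0 < j ∧
      Set.ncard {V : Finset (Fin n) | V.card = 3 ∧ (1 : ℝ) ≤ ∑ i ∈ V, x i} ≤
      Set.ncard {V : Finset (Fin n) | V.card = 3 ∧ (1 : ℝ) ≤ ∑ i ∈ V,
            (if i.val < min n ⌊h * (j : ℝ)⌋₊ then (1 : ℝ) / (j : ℝ) else 0)} := by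
  apply frozen_of_BB
  obtain ⟨g, g1, g2, g3, g4, g5⟩ := sorted_nat n x univ (by rw [card_univ, Fintype.card_fin])
    (fun i _ => hx i)
  rw [g1, cnt_three]
  exact H g g3 g4 g5 (g2.trans hsum)

end K3
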