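import Pool.Agent.Helper46.K3.Defs

namespace K3

open Finset

set_option linter.unusedSectionVars false

variable {ι : Type*} [DecidableEq ι]

theorem cnt_insert (c : ℝ) (k : ℕ) (h : ι → ℝ) {a : ι} {S : Finset ι} (ha : a ∉ S) :
    cnt c (k + 1) h (insert a S) = cnt c (k + 1) h S + cnt (c - h a) k h S := by
  unfold cnt
  rw [powersetCard_succ_insert ha, filter_union, card_union_of_disjoint]
  · congr 1
    rw [filter_image, card_image_of_injOn]
    · congr 1
      apply filter_congr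
      intro V hV
      have haV : a ∉ V := fun hm => ha ((mem_powersetCard.1 hV).1 hm)
      rw [sum_insert haV]
      constructor <;> intro hh <;> linarith
    · intro V hV W hW hVW
      have hV' := (mem_filter.1 (mem_coe.1 hV)).1
      have hW' := (mem_filter.1 (mem_coe.1 hW)).1
      have haV : a ∉ V := fun hm => ha ((mem_powersetCard.1 hV').1 hm)
      have haW : a ∉ W := fun hm => ha ((mem_powersetCard.1 hW').1 hm)
      have := congrArg (fun X => X.erase a) hVW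
      simpa [erase_insert haV, erase_insert haW] using this
  · rw [disjoint_left]
    intro V hV hV2
    have h1 := (mem_powersetCard.1 (mem_filter.1 hV).1).1
    obtain ⟨W, _, rfl⟩ := mem_image.1 (mem_filter.1 hV2).1
    exact ha (h1 (mem_insert_self a W))

theorem cnt_zero_of_pos {c : ℝ} (hc : 0 < c) (h : ι → ℝ) (S : Finset ι) : cnt c 0 h S = 0 := by
  unfold cnt
  rw [powersetCard_zero, card_eq_zero, filter_eq_empty_iff]
  intro V hV
  rw [mem_singleton] at hV
  subst hV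
  simp [hc]

theorem cnt_of_nonpos {c : ℝ} (hc : c ≤ 0) (k : ℕ) (h : ι → ℝ) (S : Finset ι)
    (h0 : ∀ i ∈ S, 0 ≤ h i) : cnt c k h S = S.card.choose k := by
  unfold cnt
  rw [← card_powersetCard k S]
  congr 1
  rw [filter_eq_self]
  intro V hV
  exact hc.trans (sum_nonneg (fun i hi => h0 i ((mem_powersetCard.1 hV).1 hi)))

theorem cnt_le_choose (c : ℝ) (k : ℕ) (h : ι → ℝ) (S : Finset ι) :
    cnt c k h S ≤ S.card.choose k := by
  unfold cnt
  rw [← card_powersetCard k S]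
  exact card_filter_le _ _

theorem cnt_mono {c c' : ℝ} {k : ℕ} {h h' : ι → ℝ} {S : Finset ι}
    (H : ∀ V, V ⊆ S → V.card = k → c ≤ ∑ i ∈ V, h i → c' ≤ ∑ i ∈ V, h' i) :
    cnt c k h S ≤ cnt c' k h' S := by
  unfold cnt
  apply card_le_card
  intro V hV
  rw [mem_filter] at hV ⊢
  have := mem_powersetCard.1 hV.1
  exact ⟨hV.1, H V this.1 this.2 hV.2⟩

theorem cnt_eq_zero {c : ℝ} {k : ℕ} {h : ι → ℝ} {S : Finset ι}
    (H : ∀ V, V ⊆ S → V.card = k → ∑ i ∈ V, h i < c) : cnt c k h S = 0 := by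
  unfold cnt
  rw [card_eq_zero, filter_eq_empty_iff]
  intro V hV
  have := mem_powersetCard.1 hV
  exact not_le.2 (H V this.1 this.2)

theorem C2_nat (n : ℕ) : ((n.choose 2 : ℕ) : ℝ) = C2 n := by
  unfold C2
  rw [Nat.cast_choose_two]

theorem C3_nat (n : ℕ) : ((n.choose 3 : ℕ) : ℝ) = C3 n := by
  unfold C3
  induction n with
  | zero => simp
  | succ n ih =>
    rw [Nat.choose_succ_succ' n 2]
    push_cast
    rw [ih, Nat.cast_choose_two]
    ring

theorem C2_nonneg {t : ℝ} (ht : 1 ≤ t) : 0 ≤ C2 t := by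
  unfold C2
  have : 0 ≤ t * (t - 1) := mul_nonneg (by linarith) (by linarith)
  linarith

/-- appending an element of dose zero -/
theorem Lam_insert_zero (h : ι → ℝ) {z : ι} {S : Finset ι} (hz : z ∉ S) (hz0 : h z = 0) (t : ℝ) :
    Lam h (insert z S) t = Lam h S (t + 1) := by
  unfold Lam
  rw [show (3 : ℕ) = 2 + 1 from rfl, cnt_insert 1 2 h hz, show (2 : ℕ) = 1 + 1 from rfl,
    cnt_insert 1 1 h hz, show (1 : ℕ) = 0 + 1 from rfl, cnt_insert 1 0 h hz, hz0, sub_zero,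
    cnt_zero_of_pos one_pos]
  push_cast
  unfold C2
  ring

/-- an element of dose at least one -/
theorem Lam_insert_single (h : ι → ℝ) {z : ι} {S : Finset ι} (hz : z ∉ S) (hz1 : 1 ≤ h z)
    (h0 : ∀ i ∈ S, 0 ≤ h i) (t : ℝ) :
    Lam h (insert z S) t = C2 ((S.card : ℝ) + t) + Lam h S t := by
  unfold Lam
  have hn : (1 : ℝ) - h z ≤ 0 := by linarith
  rw [show (3 : ℕ) = 2 + 1 from rfl, cnt_insert 1 2 h hz, show (2 : ℕ) = 1 + 1 from rfl,
    cnt_insert 1 1 h hz, show (1 : ℕ) = 0 + 1 from rfl, cnt_insert 1 0 h hz,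
    cnt_of_nonpos hn _ h S h0, cnt_of_nonpos hn _ h S h0, cnt_of_nonpos hn _ h S h0]
  push_cast
  rw [C2_nat]
  simp only [Nat.choose_zero_right, Nat.cast_one, Nat.choose_one_right]
  unfold C2
  ring

/-- a pair of dose exactly one, no dose at least one -/
theorem Lam_insert_pair (h : ι → ℝ) {u v : ι} {R : Finset ι} (hv : v ∉ R)
    (hu : u ∉ insert v R) (huv : h u + h v = 1) (h0 : ∀ i ∈ R, 0 ≤ h i)
    (hu1 : h u < 1) (hv1 : h v < 1) (hR1 : cnt 1 1 h R = 0) (t : ℝ) :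
    Lam h (insert u (insert v R)) t = ((R.card : ℝ) + t)
      + (cnt (h v) 2 h R + t * cnt (h v) 1 h R) + (cnt (1 - h v) 2 h R + t * cnt (1 - h v) 1 h R)
      + (cnt 1 3 h R + t * cnt 1 2 h R) := by
  unfold Lam
  have e1 : (1 : ℝ) - h u = h v := by linarith
  have e2 : h v - h v = 0 := sub_self _
  have p1 : (0 : ℝ) < h v := by linarith
  have p2 : (0 : ℝ) < 1 - h v := by linarith
  rw [show (3 : ℕ) = 2 + 1 from rfl, cnt_insert 1 2 h hu, show (2 : ℕ) = 1 + 1 from rfl,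
    cnt_insert 1 1 h hu, show (1 : ℕ) = 0 + 1 from rfl, cnt_insert 1 0 h hu, e1,
    cnt_zero_of_pos p1]
  simp only [zero_add, add_zero]
  rw [show (2 : ℕ) + 1 = 2 + 1 from rfl, cnt_insert 1 2 h hv, show (1 : ℕ) + 1 = 1 + 1 from rfl,
    cnt_insert 1 1 h hv, cnt_insert (h v) 1 h hv]
  rw [show (1 : ℕ) = 0 + 1 from rfl, cnt_insert (h v) 0 h hv, cnt_insert 1 0 h hv, e2,
    cnt_zero_of_pos p2, cnt_of_nonpos le_rfl 0 h R h0]
  simp only [zero_add]
  rw [cnt_of_nonpos le_rfl 1 h R h0, hR1]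
  simp only [Nat.choose_zero_right, Nat.choose_one_right]
  push_cast
  ring

theorem Lam_mono_of {h h' : ι → ℝ} {S : Finset ι}
    (H : ∀ V, V ⊆ S → V.card ≤ 3 → 1 ≤ ∑ i ∈ V, h i → 1 ≤ ∑ i ∈ V, h' i) {t : ℝ} (ht : 0 ≤ t)
    (ht2 : 0 ≤ C2 t) : Lam h S t ≤ Lam h' S t := by
  unfold Lam
  have a3 : (cnt 1 3 h S : ℝ) ≤ cnt 1 3 h' S := by
    exact_mod_cast cnt_mono (fun V hV hc => H V hV (by omega))
  have a2 : (cnt 1 2 h S : ℝ) ≤ cnt 1 2 h' S := by
    exact_mod_cast cnt_mono (fun V hV hc => H V hV (by omega))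
  have a1 : (cnt 1 1 h S : ℝ) ≤ cnt 1 1 h' S := by
    exact_mod_cast cnt_mono (fun V hV hc => H V hV (by omega))
  gcongr

/-- reduction: if `#S > 3 * total` then one element may be taken to have dose zero -/
theorem reduce (h : ι → ℝ) (S : Finset ι) (h0 : ∀ i ∈ S, 0 ≤ h i)
    (hlt : 3 * ∑ i ∈ S, h i < (S.card : ℝ)) :
    ∃ (h' : ι → ℝ) (z : ι), z ∈ S ∧ (∀ i ∈ S.erase z, 0 ≤ h' i) ∧
      ∑ i ∈ S.erase z, h' i ≤ ∑ i ∈ S, h i ∧
      ∀ t : ℝ, 0 ≤ t → 0 ≤ C2 t → Lam h S t ≤ Lam h' (S.erase z) (t + 1) := by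
  have hne : S.Nonempty := by
    rw [nonempty_iff_ne_empty]
    rintro rfl
    simp at hlt
  obtain ⟨z, hz, hmin⟩ := exists_min_image S h hne
  set m := h z with hm
  have hcard : (S.card : ℝ) * m ≤ ∑ i ∈ S, h i := by
    have := card_nsmul_le_sum S h m hmin
    simpa using this
  have hcpos : (0 : ℝ) < S.card := by exact_mod_cast hne.card_pos
  have hm0 : 0 ≤ m := h0 z hz
  have hm3 : 3 * m < 1 := by
    by_contra hcon
    push Not at hcon
    nlinarith
  have hd : 0 < 1 - 3 * m := by linarith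
  refine ⟨fun i => (h i - m) / (1 - 3 * m), z, hz, ?_, ?_, ?_⟩
  · intro i hi
    exact div_nonneg (by linarith [hmin i (mem_of_mem_erase hi)]) hd.le
  · have hs : ∑ i ∈ S.erase z, (h i - m) / (1 - 3 * m)
        = (∑ i ∈ S, h i - S.card * m) / (1 - 3 * m) := by
      have e := add_sum_erase S (fun i => (h i - m) / (1 - 3 * m)) hz
      have e2 : ∑ i ∈ S, (h i - m) / (1 - 3 * m) = (∑ i ∈ S, h i - S.card * m) / (1 - 3 * m) := by
        rw [← sum_div, sum_sub_distrib, sum_const, nsmul_eq_mul]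
      have e3 : (h z - m) / (1 - 3 * m) = 0 := by simp [hm]
      simp only [e3, zero_add] at e
      rw [e, e2]
    rw [hs, div_le_iff₀ hd]
    nlinarith
  · intro t ht ht2
    have h1 : Lam h S t ≤ Lam (fun i => (h i - m) / (1 - 3 * m)) S t := by
      apply Lam_mono_of _ ht ht2
      intro V hV hc hV1
      rw [← sum_div, sum_sub_distrib, sum_const, nsmul_eq_mul, le_div_iff₀ hd]
      have : (V.card : ℝ) ≤ 3 := by exact_mod_cast hc
      nlinarith
    refine h1.trans (le_of_eq ?_)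
    conv_lhs => rw [← insert_erase hz]
    rw [Lam_insert_zero _ (notMem_erase z S) (by simp [hm])]

end K3
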