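import Pool.Agent.Helper46.K3.Down

/-!
Certificates for the small cases: a branch and bound tree on sorted triples.
-/

set_option autoImplicit false

namespace K3

open Finset

/-- Certificates. `count`: the known nonlethal triples are numerous enough. `pack Y d`: forced
lethal triples with weights force a large total. `node S a b`: `a` if `S` is nonlethal, `b` if
`S` is lethal. -/
inductive Crt
  | count : Crt
  | pack (Y : List (Tri × ℕ)) (d : ℕ) : Crt
  | node (S : Tri) (a b : Crt) : Crt

/-- Componentwise order. -/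
def le3 (S T : Tri) : Bool :=
  Nat.ble S.1 T.1 && Nat.ble S.2.1 T.2.1 && Nat.ble S.2.2 T.2.2

/-- An increasing triple of numbers less than `n`. -/
def okn (n : ℕ) (S : Tri) : Bool :=
  Nat.blt S.1 S.2.1 && Nat.blt S.2.1 S.2.2 && Nat.blt S.2.2 n

/-- `S` is forced to be lethal: it is above a lethal triple, or its nonlethality would give the
bound `F` at once. -/
def forced (n F : ℕ) (D U : List Tri) (S : Tri) : Bool :=
  okn n S && (U.any (fun T => le3 S T) ||
    Nat.ble (n.choose 3) (F + uc n (D.length + 1) (S :: D)))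

/-- The checker; `D` = nonlethal triples, `U` = lethal triples; total dose less than `p / q`. -/
def chk (n N F p q : ℕ) : List Tri → List Tri → Crt → Bool
  | D, _, .count => Nat.ble (n.choose 3) (F + uc n D.length D)
  | D, U, .pack Y d =>
    Nat.blt 0 d && Y.all (fun P => forced n F D U P.1) &&
      (List.range (N + 1)).all (fun j => Nat.ble ((Y.map fun P => P.2 * nb j P.1).sum) (d * j)) &&
      Nat.ble (p * d) (q * (Y.map fun P => P.2).sum)
  | D, U, .node S a b => okn n S && chk n N F p q (S :: D) U a && chk n N F p q D (S :: U) b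

theorem okn_iff {n : ℕ} {S : Tri} : okn n S = true ↔ S.ok ∧ S.2.2 < n := by
  unfold okn Tri.ok
  simp only [Bool.and_eq_true, Nat.blt_eq]

theorem le3_iff {S T : Tri} : le3 S T = true ↔ S.1 ≤ T.1 ∧ S.2.1 ≤ T.2.1 ∧ S.2.2 ≤ T.2.2 := by
  unfold le3
  simp only [Bool.and_eq_true, Nat.ble_eq, and_assoc]

theorem chk_sound {h : ℕ → ℝ} (hh : Antitone h) (hn : ∀ i, 0 ≤ h i) {n N F p q : ℕ}
    (h2 : 2 ≤ n) (h0 : ∀ i, N ≤ i → h i = 0) (hq : (q : ℝ) * ∑ i ∈ range N, h i < p) (c : Crt) :
    ∀ D U : List Tri, chk n N F p q D U c = true →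
      (∀ S ∈ D, (S.ok ∧ S.2.2 ≤ n) ∧ ds h S < 1) → (∀ S ∈ U, 1 ≤ ds h S) →
      cnt 1 3 h (range n) ≤ F := by
  induction c with
  | count =>
    intro D U hc hD _
    simp only [chk, Nat.ble_eq] at hc
    have := cnt_add_uc hh h2 (fun S hS => (hD S hS).1) (fun S hS => (hD S hS).2)
    omega
  | pack Y d =>
    intro D U hc hD hU
    by_contra hcon
    push Not at hcon
    simp only [chk, Bool.and_eq_true, Nat.ble_eq, Nat.blt_eq, List.all_eq_true,
      List.mem_range] at hc
    obtain ⟨⟨⟨hd, hY⟩, hp⟩, hs⟩ := hc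
    have hlet : ∀ P ∈ Y, 1 ≤ ds h P.1 := by
      intro P hP
      have hf := hY P hP
      unfold forced at hf
      rw [Bool.and_eq_true, Bool.or_eq_true, okn_iff] at hf
      obtain ⟨hok, hf⟩ := hf
      rcases hf with hf | hf
      · rw [List.any_eq_true] at hf
        obtain ⟨T, hT, hle⟩ := hf
        rw [le3_iff] at hle
        have h3 := hU T hT
        unfold ds at h3 ⊢
        have h4 := hh hle.1
        have h5 := hh hle.2.1
        have h6 := hh hle.2.2
        linarith
      · rw [Nat.ble_eq] at hf
        by_contra hlt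
        push Not at hlt
        have := cnt_add_uc (D := P.1 :: D) hh h2
          (by
            intro S hS
            rcases List.mem_cons.1 hS with rfl | hS
            · exact ⟨hok.1, hok.2.le⟩
            · exact (hD S hS).1)
          (by
            intro S hS
            rcases List.mem_cons.1 hS with rfl | hS
            · exact hlt
            · exact (hD S hS).2)
        simp only [List.length_cons] at this
        omega
    have h3 := packing_lethal hh hn h0 Y d (fun j hj => hp j (by omega)) hlet
    have hd' : (0 : ℝ) < d := by exact_mod_cast hd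
    have h4 : (p : ℝ) * d ≤ q * (((Y.map fun P => P.2).sum : ℕ) : ℝ) := by exact_mod_cast hs
    have h5 : (q : ℝ) * (((Y.map fun P => P.2).sum : ℕ) : ℝ) ≤ q * (d * ∑ i ∈ range N, h i) :=
      mul_le_mul_of_nonneg_left h3 (Nat.cast_nonneg q)
    nlinarith
  | node S a b iha ihb =>
    intro D U hc hD hU
    simp only [chk, Bool.and_eq_true] at hc
    obtain ⟨⟨hok, hca⟩, hcb⟩ := hc
    rw [okn_iff] at hok
    rcases lt_or_ge (ds h S) 1 with hS | hS
    · refine iha (S :: D) U hca ?_ hU
      intro T hT
      rcases List.mem_cons.1 hT with rfl | hT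
      · exact ⟨⟨hok.1, hok.2.le⟩, hS⟩
      · exact hD T hT
    · refine ihb D (S :: U) hcb hD ?_
      intro T hT
      rcases List.mem_cons.1 hT with rfl | hT
      · exact hS
      · exact hU T hT

/-- The bound from a certificate. -/
theorem cnt_le_of_chk {h : ℕ → ℝ} (hh : Antitone h) (hn : ∀ i, 0 ≤ h i) {n N F p q : ℕ}
    (h2 : 2 ≤ n) (h0 : ∀ i, N ≤ i → h i = 0) (hq : (q : ℝ) * ∑ i ∈ range N, h i < p) (c : Crt)
    (hc : chk n N F p q [] [] c = true) : cnt 1 3 h (range n) ≤ F :=
  chk_sound hh hn h2 h0 hq c [] [] hc (by simp) (by simp)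

end K3
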