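import Mathlib

/-! # Poison distributions with triples: definitions

`cnt c k h S` is the number of `k`-subsets of `S` of dose at least `c`.
-/

namespace K3

open Finset

variable {ι : Type*} [DecidableEq ι]

/-- real binomial a choose 2 -/
noncomputable def C2 (a : ℝ) : ℝ := a * (a - 1) / 2

/-- real binomial a choose 3 -/
noncomputable def C3 (a : ℝ) : ℝ := a * (a - 1) * (a - 2) / 6

/-- number of `k`-subsets of `S` with dose at least `c` -/
noncomputable def cnt (c : ℝ) (k : ℕ) (h : ι → ℝ) (S : Finset ι) : ℕ :=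
  ((S.powersetCard k).filter (fun V => c ≤ ∑ i ∈ V, h i)).card

/-- number of lethal triples of `S` together with `t` further elements of dose zero -/
noncomputable def Lam (h : ι → ℝ) (S : Finset ι) (t : ℝ) : ℝ :=
  cnt 1 3 h S + t * cnt 1 2 h S + C2 t * cnt 1 1 h S

/-- number of triples of an `n`-set that meet a fixed `s`-set -/
noncomputable def AA (n s : ℝ) : ℝ := C3 n - C3 (n - s)

/-- the bound for `N + t` elements, `N = floor (3 h)`, `N / 3 = floor h` -/
noncomputable def FF (N : ℕ) (t : ℝ) : ℝ := max (C3 N) (AA (N + t) ((N / 3 : ℕ) : ℝ))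

/-- the region of `(N, t)` used by the induction -/
def Om (N : ℕ) (t : ℝ) : Prop := 15 / 2 + (N : ℝ) / 15 ≤ t ∧ 4 * (N : ℝ) / 25 - 1 / 2 ≤ t

/-- the number of pairs of `R` plus `t` zeros at the three thresholds `x`, `1 - x`, `1` with
weights `1`, `1`, `6/5` -/
noncomputable def WW (x : ℝ) (h : ι → ℝ) (R : Finset ι) (t : ℝ) : ℝ :=
  (cnt x 2 h R + t * cnt x 1 h R) + (cnt (1 - x) 2 h R + t * cnt (1 - x) 1 h R)
    + 6 / 5 * cnt 1 2 h R

noncomputable def bI (P t : ℝ) : ℝ :=
  C2 P + P * t + 11 / 5 * (P + t) * (P / 3) - 11 / 10 * (P / 3) ^ 2 - 11 / 10 * (P / 3)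
    - 2 / 5 * t * (P / 3)

noncomputable def bII (P t : ℝ) : ℝ :=
  4 * (P + t - 1) * (P / 3) - 8 / 5 * (P / 3) ^ 2 + 8 / 5 * (P / 3)

end K3
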