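import Pool.Agent.Helper46.K3.Defs

/-!
Sorted doses: down sets of triples, their sizes, and the packing bound.
-/

set_option autoImplicit false

namespace K3

open Finset

/-- Triples of naturals (used as `a < b < c`). -/
abbrev Tri := ℕ × ℕ × ℕ

/-- Strictly increasing. -/
def Tri.ok (S : Tri) : Prop := S.1 < S.2.1 ∧ S.2.1 < S.2.2

instance (S : Tri) : Decidable S.ok := inferInstanceAs (Decidable (_ ∧ _))

/-- The triples `a' < b' < c' < n` with `a ≤ a'`, `b ≤ b'`, `c ≤ c'`. -/
def dn (n : ℕ) (S : Tri) : Finset Tri :=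
  (Finset.Ico S.2.2 n).biUnion fun c => (Finset.Ico S.2.1 c).biUnion fun b =>
    (Finset.Ico S.1 b).image fun a => (a, b, c)

theorem mem_dn {n : ℕ} {S T : Tri} : T ∈ dn n S ↔
    S.1 ≤ T.1 ∧ S.2.1 ≤ T.2.1 ∧ S.2.2 ≤ T.2.2 ∧ T.1 < T.2.1 ∧ T.2.1 < T.2.2 ∧ T.2.2 < n := by
  obtain ⟨a, b, c⟩ := S
  obtain ⟨a', b', c'⟩ := T
  simp only [dn, Finset.mem_biUnion, Finset.mem_image, Finset.mem_Ico, Prod.mk.injEq]
  constructor
  · rintro ⟨c1, ⟨h1, h2⟩, b1, ⟨h3, h4⟩, a1, ⟨h5, h6⟩, rfl, rfl, rfl⟩
    exact ⟨h5, h3, h1, h6, h4, h2⟩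
  · rintro ⟨h5, h3, h1, h6, h4, h2⟩
    exact ⟨c', ⟨h1, h2⟩, b', ⟨h3, h4⟩, a', ⟨h5, h6⟩, rfl, rfl, rfl⟩

/-- The size of a down set, `x = b - a`, `y = c - b`, `z = n - c`. -/
def dnc (n : ℕ) (S : Tri) : ℕ :=
  (n - S.2.2).choose 3 + (S.2.2 - S.1) * (n - S.2.2).choose 2 +
    ((S.2.1 - S.1) * (S.2.2 - S.2.1) + (S.2.2 - S.2.1).choose 2) * (n - S.2.2)

theorem sum_sub (a b m : ℕ) (h : a ≤ b) :
    ∑ i ∈ Finset.Ico b (b + m), (i - a) = (b - a) * m + m.choose 2 := by
  induction m with
  | zero => simp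
  | succ m ih =>
    rw [← Nat.add_assoc, Finset.sum_Ico_succ_top (by omega), ih]
    have h1 : (m + 1).choose 2 = m + m.choose 2 := by
      rw [Nat.choose_succ_succ' m 1, Nat.choose_one_right]
    rw [h1]
    have h2 : b + m - a = (b - a) + m := by omega
    rw [h2]
    ring

theorem card_dn {n : ℕ} {S : Tri} (hS : S.ok) (hn : S.2.2 ≤ n) :
    (dn n S).card = dnc n S := by
  obtain ⟨a, b, c⟩ := S
  obtain ⟨hab, hbc⟩ := hS
  simp only at hab hbc hn
  have h1 : ∀ c' b' : ℕ, ((Finset.Ico a b').image fun a' => ((a', b', c') : Tri)).card = b' - a := by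
    intro c' b'
    rw [Finset.card_image_of_injective, Nat.card_Ico]
    intro u v huv
    simpa using huv
  have h2 : ∀ c' : ℕ, ((Finset.Ico b c').biUnion fun b' =>
      (Finset.Ico a b').image fun a' => ((a', b', c') : Tri)).card =
      ∑ b' ∈ Finset.Ico b c', (b' - a) := by
    intro c'
    rw [Finset.card_biUnion]
    · exact Finset.sum_congr rfl fun b' _ => h1 c' b'
    · intro u _ v _ huv
      change Disjoint _ _
      rw [Finset.disjoint_left]
      intro T hT hT'
      simp only [Finset.mem_image] at hT hT'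
      obtain ⟨_, _, rfl⟩ := hT
      obtain ⟨_, _, h⟩ := hT'
      simp only [Prod.mk.injEq] at h
      exact huv h.2.1.symm
  have h3 : (dn n (a, b, c)).card = ∑ c' ∈ Finset.Ico c n, ∑ b' ∈ Finset.Ico b c', (b' - a) := by
    unfold dn
    rw [Finset.card_biUnion]
    · exact Finset.sum_congr rfl fun c' _ => h2 c'
    · intro u _ v _ huv
      change Disjoint _ _
      rw [Finset.disjoint_left]
      intro T hT hT'
      simp only [Finset.mem_biUnion, Finset.mem_image] at hT hT'
      obtain ⟨_, _, _, _, rfl⟩ := hT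
      obtain ⟨_, _, _, _, h⟩ := hT'
      simp only [Prod.mk.injEq] at h
      exact huv h.2.2.symm
  rw [h3]
  obtain ⟨z, rfl⟩ := Nat.exists_eq_add_of_le hn
  unfold dnc
  simp only [Nat.add_sub_cancel_left]
  induction z with
  | zero => simp
  | succ z ih =>
    rw [← Nat.add_assoc, Finset.sum_Ico_succ_top (by omega), ih (by omega)
      (by
        unfold dn
        rw [Finset.card_biUnion]
        · exact Finset.sum_congr rfl fun c' _ => h2 c'
        · intro u _ v _ huv
          change Disjoint _ _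
          rw [Finset.disjoint_left]
          intro T hT hT'
          simp only [Finset.mem_biUnion, Finset.mem_image] at hT hT'
          obtain ⟨_, _, _, _, rfl⟩ := hT
          obtain ⟨_, _, _, _, h⟩ := hT'
          simp only [Prod.mk.injEq] at h
          exact huv h.2.2.symm)]
    obtain ⟨m, rfl⟩ := Nat.exists_eq_add_of_le hbc.le
    obtain ⟨x, rfl⟩ := Nat.exists_eq_add_of_le hab.le
    have h4 : a + x + m + z = (a + x) + (m + z) := by ring
    rw [h4, sum_sub a (a + x) (m + z) (by omega)]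
    have e1 : a + x - a = x := by omega
    have e2 : a + x + m - (a + x) = m := by omega
    have e3 : a + x + m - a = x + m := by omega
    rw [e1, e2, e3]
    have c3 : (z + 1).choose 3 = z.choose 2 + z.choose 3 := Nat.choose_succ_succ' z 2
    have c2 : (z + 1).choose 2 = z + z.choose 2 := by
      rw [Nat.choose_succ_succ' z 1, Nat.choose_one_right]
    have cm : (m + z).choose 2 = m.choose 2 + m * z + z.choose 2 := by
      have h5 := Nat.add_choose_eq m z 2
      rw [h5]
      simp [Finset.Nat.antidiagonal_succ]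
      ring
    rw [c3, c2, cm]
    ring

/-- Componentwise maximum. -/
def mx (S T : Tri) : Tri := (max S.1 T.1, max S.2.1 T.2.1, max S.2.2 T.2.2)

theorem mx_ok {S T : Tri} (hS : S.ok) (hT : T.ok) : (mx S T).ok := by
  obtain ⟨h1, h2⟩ := hS
  obtain ⟨h3, h4⟩ := hT
  unfold mx Tri.ok
  simp only
  omega

theorem dn_inter (n : ℕ) (S T : Tri) : dn n S ∩ dn n T = dn n (mx S T) := by
  ext U
  rw [Finset.mem_inter, mem_dn, mem_dn, mem_dn]
  simp only [mx]
  omega

/-- The union of the down sets of a list. -/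
def un (n : ℕ) : List Tri → Finset Tri
  | [] => ∅
  | S :: D => dn n S ∪ un n D

theorem mem_un {n : ℕ} {D : List Tri} {T : Tri} : T ∈ un n D ↔ ∃ S ∈ D, T ∈ dn n S := by
  induction D with
  | nil => simp [un]
  | cons S D ih => simp [un, ih]

theorem inter_un (n : ℕ) (S : Tri) (D : List Tri) :
    dn n S ∩ un n D = un n (D.map (mx S)) := by
  induction D with
  | nil => simp [un]
  | cons T D ih =>
    simp only [un, List.map_cons]
    rw [Finset.inter_union_distrib_left, ih, dn_inter]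

/-- The size of the union of the down sets of a list (`k` at least the length). -/
def uc (n : ℕ) : ℕ → List Tri → ℕ
  | 0, _ => 0
  | _ + 1, [] => 0
  | k + 1, S :: D => dnc n S + uc n k D - uc n k (D.map (mx S))

theorem card_un {n k : ℕ} {D : List Tri} (hk : D.length ≤ k)
    (hD : ∀ S ∈ D, S.ok ∧ S.2.2 ≤ n) : (un n D).card = uc n k D := by
  induction k generalizing D with
  | zero =>
    have : D = [] := List.length_eq_zero_iff.1 (by omega)
    subst this
    simp [un, uc]
  | succ k ih =>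
    cases D with
    | nil => simp [un, uc]
    | cons S D =>
      have hS := hD S (by simp)
      have hD' : ∀ T ∈ D, T.ok ∧ T.2.2 ≤ n := fun T hT => hD T (by simp [hT])
      have hl : D.length ≤ k := by simpa using hk
      simp only [un, uc]
      rw [Finset.card_union, card_dn hS.1 hS.2, ih hl hD', inter_un,
        ih (by simpa using hl) (by
          intro T hT
          obtain ⟨U, hU, rfl⟩ := List.mem_map.1 hT
          obtain ⟨h1, h2⟩ := hD' U hU
          refine ⟨mx_ok hS.1 h1, ?_⟩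
          simp only [mx]
          have := hS.2
          omega)]

/-! ### sorted doses -/

/-- The dose of a triple. -/
def ds (h : ℕ → ℝ) (S : Tri) : ℝ := h S.1 + h S.2.1 + h S.2.2

theorem ds_le {h : ℕ → ℝ} (hh : Antitone h) {n : ℕ} {S T : Tri} (hT : T ∈ dn n S) :
    ds h T ≤ ds h S := by
  rw [mem_dn] at hT
  unfold ds
  have h1 := hh hT.1
  have h2 := hh hT.2.1
  have h3 := hh hT.2.2.1
  linarith

/-- All triples. -/
theorem mem_dn_all {n : ℕ} {T : Tri} : T ∈ dn n (0, 1, 2) ↔ T.1 < T.2.1 ∧ T.2.1 < T.2.2 ∧ T.2.2 < n := by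
  rw [mem_dn]
  simp only
  omega

/-- Lethal triples as a set of increasing triples. -/
theorem cnt_eq (h : ℕ → ℝ) (n : ℕ) :
    cnt 1 3 h (range n) = ((dn n (0, 1, 2)).filter (fun T => 1 ≤ ds h T)).card := by
  unfold cnt
  symm
  refine Finset.card_bij (fun T _ => ({T.1, T.2.1, T.2.2} : Finset ℕ)) ?_ ?_ ?_
  · rintro ⟨a, b, c⟩ hT
    rw [Finset.mem_filter, mem_dn_all] at hT
    obtain ⟨⟨h1, h2, h3⟩, h4⟩ := hT
    simp only at h1 h2 h3 h4 ⊢
    have hab : a ≠ b := by omega
    have hac : a ≠ c := by omega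
    have hbc : b ≠ c := by omega
    rw [Finset.mem_filter, Finset.mem_powersetCard]
    refine ⟨⟨?_, ?_⟩, ?_⟩
    · intro i hi
      simp only [Finset.mem_insert, Finset.mem_singleton] at hi
      rw [Finset.mem_range]
      omega
    · exact Finset.card_eq_three.2 ⟨a, b, c, hab, hac, hbc, rfl⟩
    · rw [Finset.sum_insert (by simp [hab, hac]), Finset.sum_insert (by simp [hbc]),
        Finset.sum_singleton]
      unfold ds at h4
      simp only at h4
      linarith
  · rintro ⟨a, b, c⟩ hT ⟨a', b', c'⟩ hT' he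
    rw [Finset.mem_filter, mem_dn_all] at hT hT'
    obtain ⟨⟨h1, h2, h3⟩, h4⟩ := hT
    obtain ⟨⟨h5, h6, h7⟩, h8⟩ := hT'
    simp only at h1 h2 h3 h5 h6 h7 he
    have ha : a ∈ ({a', b', c'} : Finset ℕ) := by rw [← he]; simp
    have hb : b ∈ ({a', b', c'} : Finset ℕ) := by rw [← he]; simp
    have hc : c ∈ ({a', b', c'} : Finset ℕ) := by rw [← he]; simp
    have ha' : a' ∈ ({a, b, c} : Finset ℕ) := by rw [he]; simp
    have hb' : b' ∈ ({a, b, c} : Finset ℕ) := by rw [he]; simp
    have hc' : c' ∈ ({a, b, c} : Finset ℕ) := by rw [he]; simp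
    simp only [Finset.mem_insert, Finset.mem_singleton] at ha hb hc ha' hb' hc'
    simp only [Prod.mk.injEq]
    omega
  · intro V hV
    rw [Finset.mem_filter, Finset.mem_powersetCard] at hV
    obtain ⟨⟨hV1, hV2⟩, hV3⟩ := hV
    obtain ⟨x, y, z, hxy, hxz, hyz, rfl⟩ := Finset.card_eq_three.1 hV2
    have hx : x < n := Finset.mem_range.1 (hV1 (by simp))
    have hy : y < n := Finset.mem_range.1 (hV1 (by simp))
    have hz : z < n := Finset.mem_range.1 (hV1 (by simp))
    rw [Finset.sum_insert (by simp [hxy, hxz]), Finset.sum_insert (by simp [hyz]),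
      Finset.sum_singleton] at hV3
    have key : ∀ a b c : ℕ, a < b → b < c → c < n → ({a, b, c} : Finset ℕ) = {x, y, z} →
        h a + h b + h c = h x + (h y + h z) →
        ∃ T, ∃ (_ : T ∈ (dn n (0, 1, 2)).filter (fun T => 1 ≤ ds h T)),
          ({T.1, T.2.1, T.2.2} : Finset ℕ) = {x, y, z} := by
      intro a b c h1 h2 h3 h4 h5
      refine ⟨(a, b, c), ?_, h4⟩
      rw [Finset.mem_filter, mem_dn_all]
      refine ⟨⟨h1, h2, h3⟩, ?_⟩
      unfold ds
      simp only
      linarith
    rcases lt_or_gt_of_ne hxy with h1 | h1 <;> rcases lt_or_gt_of_ne hxz with h2 | h2 <;>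
      rcases lt_or_gt_of_ne hyz with h3 | h3
    · exact key x y z h1 h3 hz rfl (by ring)
    · exact key x z y h2 h3 hy (by ext i; simp; tauto) (by ring)
    · omega
    · exact key z x y h2 h1 hy (by ext i; simp; tauto) (by ring)
    · exact key y x z h1 h2 hz (by ext i; simp; tauto) (by ring)
    · omega
    · exact key y z x h3 h2 hx (by ext i; simp; tauto) (by ring)
    · exact key z y x h3 h1 hx (by ext i; simp; tauto) (by ring)

/-- Nonlethal triples bound the number of lethal ones. -/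
theorem cnt_add_uc {h : ℕ → ℝ} (hh : Antitone h) {n : ℕ} (hn : 2 ≤ n) {D : List Tri}
    (hD : ∀ S ∈ D, S.ok ∧ S.2.2 ≤ n) (hl : ∀ S ∈ D, ds h S < 1) :
    cnt 1 3 h (range n) + uc n D.length D ≤ n.choose 3 := by
  have h1 : (dn n (0, 1, 2)).card = n.choose 3 := by
    rw [card_dn ⟨by norm_num, by norm_num⟩ hn]
    unfold dnc
    obtain ⟨m, rfl⟩ := Nat.exists_eq_add_of_le hn
    simp only [Nat.add_sub_cancel_left]
    have h2 := Nat.add_choose_eq 2 m 3
    rw [h2]
    simp [Finset.Nat.antidiagonal_succ]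
    ring
  rw [cnt_eq, ← h1, ← card_un le_rfl hD, ← Finset.card_union_of_disjoint]
  · apply Finset.card_le_card
    intro T hT
    rcases Finset.mem_union.1 hT with hT | hT
    · exact (Finset.mem_filter.1 hT).1
    · obtain ⟨S, hS, hTS⟩ := mem_un.1 hT
      rw [mem_dn] at hTS
      rw [mem_dn_all]
      exact ⟨hTS.2.2.2.1, hTS.2.2.2.2.1, hTS.2.2.2.2.2⟩
  · rw [Finset.disjoint_left]
    intro T hT hT'
    obtain ⟨S, hS, hTS⟩ := mem_un.1 hT'
    have h3 := (Finset.mem_filter.1 hT).2
    have h4 := ds_le hh hTS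
    have h5 := hl S hS
    linarith

/-! ### packing -/

theorem abel {h : ℕ → ℝ} (hh : Antitone h) (u : ℕ → ℝ) (N : ℕ)
    (hU : ∀ j ≤ N + 1, 0 ≤ ∑ i ∈ range j, u i) :
    (∑ i ∈ range (N + 1), u i) * h N ≤ ∑ i ∈ range (N + 1), u i * h i := by
  induction N with
  | zero => simp
  | succ N ih =>
    have h1 := ih fun j hj => hU j (by omega)
    rw [Finset.sum_range_succ, Finset.sum_range_succ (fun i => u i * h i)]
    have h2 : (∑ i ∈ range (N + 1), u i) * h (N + 1) ≤ (∑ i ∈ range (N + 1), u i) * h N :=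
      mul_le_mul_of_nonneg_left (hh (Nat.le_succ N)) (hU _ (by omega))
    nlinarith

/-- Number of the members of a triple below `j`. -/
def nb (j : ℕ) (S : Tri) : ℕ :=
  (if S.1 < j then 1 else 0) + (if S.2.1 < j then 1 else 0) + (if S.2.2 < j then 1 else 0)

/-- Number of members of a triple equal to `i`. -/
def ne (i : ℕ) (S : Tri) : ℕ :=
  (if S.1 = i then 1 else 0) + (if S.2.1 = i then 1 else 0) + (if S.2.2 = i then 1 else 0)

theorem sum_ne (j : ℕ) (S : Tri) : ∑ i ∈ range j, ne i S = nb j S := by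
  unfold ne nb
  rw [Finset.sum_add_distrib, Finset.sum_add_distrib]
  simp only [Finset.sum_ite_eq, Finset.mem_range]

theorem sum_ne_mul {h : ℕ → ℝ} {N : ℕ} (h0 : ∀ i, N ≤ i → h i = 0) (S : Tri) :
    ∑ i ∈ range N, (ne i S : ℝ) * h i = ds h S := by
  have key : ∀ a : ℕ, ∑ i ∈ range N, (if a = i then (1 : ℝ) else 0) * h i = h a := by
    intro a
    simp only [ite_mul, one_mul, zero_mul, Finset.sum_ite_eq, Finset.mem_range]
    split_ifs with h1
    · rfl
    · exact (h0 a (not_lt.1 h1)).symm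
  unfold ne ds
  push_cast
  simp only [add_mul, Finset.sum_add_distrib, key]

/-- The packing bound: if the weighted triples `Y` use at most `d * j` of each initial segment
`[0, j)`, then the weighted dose is at most `d` times the total. -/
theorem packing {h : ℕ → ℝ} (hh : Antitone h) (hn : ∀ i, 0 ≤ h i) {N : ℕ}
    (h0 : ∀ i, N ≤ i → h i = 0) (Y : List (Tri × ℕ)) (d : ℕ)
    (hY : ∀ j ≤ N, (Y.map fun P => P.2 * nb j P.1).sum ≤ d * j) :
    (Y.map fun P => (P.2 : ℝ) * ds h P.1).sum ≤ d * ∑ i ∈ range N, h i := by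
  rcases Nat.eq_zero_or_pos N with hN | hN
  · subst hN
    have : ∀ P ∈ Y, (P.2 : ℝ) * ds h P.1 = 0 := by
      intro P _
      unfold ds
      rw [h0 _ (Nat.zero_le _), h0 _ (Nat.zero_le _), h0 _ (Nat.zero_le _)]
      ring
    rw [List.map_congr_left this]
    simp
  obtain ⟨M, rfl⟩ : ∃ M, N = M + 1 := ⟨N - 1, by omega⟩
  set u : ℕ → ℝ := fun i => d - ((Y.map fun P => P.2 * ne i P.1).sum : ℕ) with hu
  have hsum : ∀ j, ∑ i ∈ range j, ((Y.map fun P => P.2 * ne i P.1).sum : ℕ) =
      (Y.map fun P => P.2 * nb j P.1).sum := by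
    intro j
    induction Y with
    | nil => simp
    | cons P Y ih =>
      simp only [List.map_cons, List.sum_cons]
      rw [Finset.sum_add_distrib, ← Finset.mul_sum, sum_ne]
      congr 1
      refine ih (fun j hj => ?_) rfl
      have := hY j hj
      simp only [List.map_cons, List.sum_cons] at this
      omega
  have hU : ∀ j ≤ M + 1, 0 ≤ ∑ i ∈ range j, u i := by
    intro j hj
    have h1 := hY j hj
    rw [← hsum j] at h1
    have h2 : ∑ i ∈ range j, u i = d * j
        - ((∑ i ∈ range j, ((Y.map fun P => P.2 * ne i P.1).sum : ℕ) : ℕ) : ℝ) := by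
      rw [hu, Finset.sum_sub_distrib, Finset.sum_const, Finset.card_range, nsmul_eq_mul]
      push_cast
      ring
    rw [h2]
    have h3 : ((∑ i ∈ range j, ((Y.map fun P => P.2 * ne i P.1).sum : ℕ) : ℕ) : ℝ)
        ≤ ((d * j : ℕ) : ℝ) := by exact_mod_cast h1
    push_cast at h3 ⊢
    linarith
  have h1 := abel hh u M hU
  have h2 : 0 ≤ (∑ i ∈ range (M + 1), u i) * h M := mul_nonneg (hU _ le_rfl) (hn M)
  have h3 : ∑ i ∈ range (M + 1), u i * h i = d * ∑ i ∈ range (M + 1), h i
      - (Y.map fun P => (P.2 : ℝ) * ds h P.1).sum := by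
    have h4 : ∑ i ∈ range (M + 1), ((Y.map fun P => P.2 * ne i P.1).sum : ℕ) * h i =
        (Y.map fun P => (P.2 : ℝ) * ds h P.1).sum := by
      clear hY hu hsum hU h1 h2 u
      induction Y with
      | nil => simp
      | cons P Y ih =>
        simp only [List.map_cons, List.sum_cons]
        rw [← ih, ← sum_ne_mul h0, Finset.mul_sum, ← Finset.sum_add_distrib]
        refine Finset.sum_congr rfl fun i _ => ?_
        rw [Nat.cast_add, Nat.cast_mul]
        ring
    rw [← h4, Finset.mul_sum, ← Finset.sum_sub_distrib]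
    refine Finset.sum_congr rfl fun i _ => ?_
    rw [hu]
    ring
  linarith

/-- Lethal triples with a packing force a large total. -/
theorem packing_lethal {h : ℕ → ℝ} (hh : Antitone h) (hn : ∀ i, 0 ≤ h i) {N : ℕ}
    (h0 : ∀ i, N ≤ i → h i = 0) (Y : List (Tri × ℕ)) (d : ℕ)
    (hY : ∀ j ≤ N, (Y.map fun P => P.2 * nb j P.1).sum ≤ d * j)
    (hl : ∀ P ∈ Y, 1 ≤ ds h P.1) :
    (((Y.map fun P => P.2).sum : ℕ) : ℝ) ≤ d * ∑ i ∈ range N, h i := by
  refine le_trans ?_ (packing hh hn h0 Y d hY)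
  clear hY
  induction Y with
  | nil => simp
  | cons P Y ih =>
    simp only [List.map_cons, List.sum_cons]
    have h1 := hl P (by simp)
    have h2 := ih fun Q hQ => hl Q (by simp [hQ])
    have h3 : (0 : ℝ) ≤ P.2 := Nat.cast_nonneg _
    rw [Nat.cast_add]
    nlinarith

end K3
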