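import Pool.Agent.Helper46.K3.Step

namespace K3

open Finset

set_option linter.unusedSectionVars false

variable {ι : Type*} [DecidableEq ι]

theorem reduce_many (N k : ℕ) : ∀ (m : ℕ) (h : ι → ℝ) (S : Finset ι), S.card = N + k →
    (∀ i ∈ S, 0 ≤ h i) → 3 * ∑ i ∈ S, h i < (N : ℝ) + 1 →
    ∃ (h' : ι → ℝ) (S' : Finset ι), S'.card = N ∧ (∀ i ∈ S', 0 ≤ h' i) ∧
      3 * ∑ i ∈ S', h' i < (N : ℝ) + 1 ∧ Lam h S m ≤ Lam h' S' ((m : ℝ) + k) := by
  induction k with
  | zero =>
    intro m h S hc h0 hs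
    exact ⟨h, S, by simpa using hc, h0, hs, by simp⟩
  | succ k ih =>
    intro m h S hc h0 hs
    have hlt : 3 * ∑ i ∈ S, h i < (S.card : ℝ) := by
      rw [hc]; push_cast
      have : (0 : ℝ) ≤ k := Nat.cast_nonneg k
      linarith
    obtain ⟨h1, z, hz, h10, h1s, h1L⟩ := reduce h S h0 hlt
    obtain ⟨h2, S2, hS2, h20, h2s, h2L⟩ := ih (m + 1) h1 (S.erase z)
      (by rw [card_erase_of_mem hz, hc]; omega) h10 (by linarith)
    refine ⟨h2, S2, hS2, h20, h2s, ?_⟩
    have e1 := h1L m (Nat.cast_nonneg m) (by rw [← C2_nat]; exact Nat.cast_nonneg _)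
    push_cast at h2L ⊢
    refine e1.trans (h2L.trans (le_of_eq ?_))
    congr 1
    ring

theorem C2_mono_nat {k : ℕ} {t : ℝ} (hkt : (k : ℝ) ≤ t) (ht : 1 ≤ t) : C2 k ≤ C2 t := by
  rcases Nat.eq_zero_or_pos k with rfl | hk
  · have := C2_nonneg ht
    unfold C2 at this ⊢
    simpa using this
  · have : (1 : ℝ) ≤ k := by exact_mod_cast hk
    unfold C2
    nlinarith

theorem bound (N k : ℕ) (hN : 87 ≤ N) (h : ι → ℝ) (S : Finset ι) (hc : S.card = N + k)
    (h0 : ∀ i ∈ S, 0 ≤ h i) (hs : 3 * ∑ i ∈ S, h i < (N : ℝ) + 1) :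
    (cnt 1 3 h S : ℝ) ≤ max (C3 N) (AA ((N : ℝ) + k) ((N / 3 : ℕ) : ℝ)) := by
  obtain ⟨h1, S1, hS1, h10, h1s, h1L⟩ := reduce_many N k 0 h S hc h0 hs
  have hL0 : Lam h S ((0 : ℕ) : ℝ) = cnt 1 3 h S := by
    unfold Lam C2
    simp
  rw [hL0] at h1L
  simp only [Nat.cast_zero, zero_add] at h1L
  refine h1L.trans ?_
  have hNr : (87 : ℝ) ≤ N := by exact_mod_cast hN
  by_cases hO : Om N k
  · exact PP_main N k hO S1 h1 h10 h1s hS1
  · set t := 4 * (N : ℝ) / 25 - 1 / 2 with ht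
    have hOt : Om N t := ⟨by linarith, by linarith⟩
    have hkt : (k : ℝ) ≤ t := by
      by_contra hcon
      push Not at hcon
      exact hO ⟨by linarith, by linarith⟩
    have ht1 : 1 ≤ t := by linarith
    have e1 : Lam h1 S1 k ≤ Lam h1 S1 t := by
      unfold Lam
      have := C2_mono_nat hkt ht1
      gcongr
    have e2 := PP_main (ι := ι) N t hOt S1 h1 h10 h1s hS1
    have e3 : AA ((N : ℝ) + t) ((N / 3 : ℕ) : ℝ) ≤ C3 N := by
      apply condEnd N hN
      · have : 3 * (N / 3) ≤ N := Nat.mul_div_le N 3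
        exact_mod_cast this
      · exact Nat.cast_nonneg _
    unfold FF at e2
    rw [max_eq_left e3] at e2
    exact e1.trans (e2.trans (le_max_left _ _))

/-- count for the `1/j`-distributions -/
theorem ncard_eq_cnt {n : ℕ} (x : Fin n → ℝ) (k : ℕ) :
    Set.ncard {V : Finset (Fin n) | V.card = k ∧ (1 : ℝ) ≤ ∑ i ∈ V, x i} = cnt 1 k x univ := by
  unfold cnt
  rw [← Set.ncard_coe_finset]
  congr 1
  ext V
  simp [mem_powersetCard]

theorem card_lt_filter {n m : ℕ} (hm : m ≤ n) :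
    ((univ : Finset (Fin n)).filter (fun i => i.val < m)).card = m := by
  have : ((univ : Finset (Fin n)).filter (fun i => i.val < m)).card
      = ((univ : Finset (Fin m)).map (Fin.castLEEmb hm)).card := by
    congr 1
    ext i
    simp only [mem_filter, mem_univ, true_and, mem_map]
    constructor
    · intro hi
      exact ⟨⟨i.val, hi⟩, by ext; simp⟩
    · rintro ⟨j, rfl⟩
      simp
  rw [this, card_map, card_univ, Fintype.card_fin]

theorem cnt_third {n m : ℕ} (hm : m ≤ n) :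
    m.choose 3 ≤ cnt 1 3 (fun i : Fin n => if i.val < m then (1 : ℝ) / ((3 : ℕ) : ℝ) else 0) univ := by
  unfold cnt
  rw [← card_lt_filter hm, ← card_powersetCard]
  apply card_le_card
  intro V hV
  rw [mem_powersetCard] at hV
  rw [mem_filter, mem_powersetCard]
  refine ⟨⟨subset_univ _, hV.2⟩, ?_⟩
  rw [card_lt_filter hm]
  have : ∑ i ∈ V, (if i.val < m then (1 : ℝ) / ((3 : ℕ) : ℝ) else 0) = ∑ i ∈ V, (1 : ℝ) / 3 := by
    apply sum_congr rfl
    intro i hi
    have := (mem_filter.1 (hV.1 hi)).2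
    simp [this]
  rw [this, sum_const, hV.2]
  norm_num

theorem cnt_one_dist {n m : ℕ} (hm : m ≤ n) :
    n.choose 3 ≤ cnt 1 3 (fun i : Fin n => if i.val < m then (1 : ℝ) / ((1 : ℕ) : ℝ) else 0) univ
      + (n - m).choose 3 := by
  classical
  have h1 : n.choose 3 = (powersetCard 3 (univ : Finset (Fin n))).card := by
    rw [card_powersetCard, card_univ, Fintype.card_fin]
  have h2 : (n - m).choose 3
      = (powersetCard 3 ((univ : Finset (Fin n)).filter (fun i => ¬ i.val < m))).card := by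
    rw [card_powersetCard, filter_not, card_sdiff_of_subset (filter_subset _ _), card_lt_filter hm,
      card_univ, Fintype.card_fin]
  rw [h1, h2]
  unfold cnt
  rw [← card_filter_add_card_filter_not (s := powersetCard 3 (univ : Finset (Fin n)))
    (fun V => (1 : ℝ) ≤ ∑ i ∈ V, (if i.val < m then (1 : ℝ) / ((1 : ℕ) : ℝ) else 0))]
  gcongr
  intro V hV
  rw [mem_filter, mem_powersetCard] at hV
  rw [mem_powersetCard]
  refine ⟨?_, hV.1.2⟩
  intro i hi
  rw [mem_filter]
  refine ⟨mem_univ _, ?_⟩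
  intro him
  apply hV.2
  have := single_le_sum (f := fun i : Fin n => (if i.val < m then (1 : ℝ) / ((1 : ℕ) : ℝ) else 0))
    (s := V) (fun j _ => by split_ifs <;> simp) hi
  simpa [him] using this

end K3
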