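import Pool.Agent.Helper40.K3S.Red
import Pool.Agent.Helper40.K3S.Slope
import Pool.Agent.Helper40.K3S.Core

/-!
From finitely many certificates for one type of `h` to all `n`.
-/

set_option autoImplicit false

namespace K3S

open Finset

/-- the least number of nonlethal triples of the three distributions -/
def tgt (n N s m : ℕ) : ℕ :=
  min (size n s (s + 1) (s + 2)) (min (size n 0 m (m + 1)) (size n 0 1 N))

theorem size_third (n N : ℕ) : size n 0 1 N = c3 n - c3 N := by
  unfold size
  have h : c2 (1 - 0) = 0 := rfl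
  rw [h]
  simp

/-- Fewer zero doses: fewer lethal triples. -/
theorem NL_mono (g : ℕ → ℝ) {n n' : ℕ} (h : n ≤ n') :
    (NL g n').card + n.choose 3 ≤ (NL g n).card + n'.choose 3 := by
  have h1 := tri_add_NL g n
  have h2 := tri_add_NL g n'
  have h3 : (K3.tri 1 g n).card ≤ (K3.tri 1 g n').card := by
    rw [← K3.cnt_three, ← K3.cnt_three]
    unfold K3.cnt
    apply card_le_card
    intro V hV
    rw [mem_filter, mem_powersetCard] at hV ⊢
    exact ⟨⟨hV.1.1.trans (range_mono h), hV.1.2⟩, hV.2⟩
  omega

theorem glue {N s m nC nA : ℕ} {g : ℕ → ℝ} (hg : Antitone g) (h0 : ∀ i, 0 ≤ g i)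
    (hz : ∀ i, N ≤ i → g i = 0) (hsum : ∑ i ∈ range N, g i < s + 1) (hs : 1 ≤ s)
    (hN : 3 * s ≤ N)
    (hC : size nC 0 1 N ≤ (NL g nC).card)
    (hmid : ∀ n, nC < n → n < nA → tgt n N s m ≤ (NL g n).card)
    (hNA : N < nA)
    (hA : size nA s (s + 1) (s + 2) ≤ (NL g nA).card) {n : ℕ} (hn : N < n) :
    tgt n N s m ≤ (NL g n).card := by
  rcases Nat.lt_or_ge nC n with h1 | h1
  · rcases Nat.lt_or_ge n nA with h2 | h2
    · exact hmid n h1 h2
    · have key : ∀ n, nA ≤ n → size n s (s + 1) (s + 2) ≤ (NL g n).card := by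
        intro n hn
        induction n, hn using Nat.le_induction with
        | base => exact hA
        | succ n hn ih =>
          have e1 : ∑ i ∈ range n, g i = ∑ i ∈ range N, g i := by
            symm
            apply sum_subset (range_mono (by omega))
            intro i _ hi
            rw [mem_range, not_lt] at hi
            exact hz i hi
          exact slope hs (by omega) g hg h0 (hz n (by omega)) (by rw [e1]; exact hsum) ih
      exact (min_le_left _ _).trans (key n h2)
  · refine (min_le_right _ _).trans ((min_le_right _ _).trans ?_)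
    rw [size_third] at hC ⊢
    have h2 := NL_mono g h1
    rw [c3_eq, c3_eq] at hC ⊢
    have h3 : N.choose 3 ≤ n.choose 3 := Nat.choose_le_choose 3 hn.le
    have h4 : N.choose 3 ≤ nC.choose 3 := Nat.choose_le_choose 3 (by omega)
    omega

end K3S
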