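import Pool.Agent.Helper46.K3.Final

namespace K3

open Finset

/-- For `h ≥ 29` one of the distributions `1 / j`, `j = 1, 3`, beats every distribution. -/
theorem large' (n : ℕ) (h : ℝ) (hh : 29 ≤ h) :
    ∃ j : ℕ, 1 ≤ j ∧ j ≤ 3 ∧ ∀ x : Fin n → ℝ, (∀ i, 0 ≤ x i) → ∑ i, x i = h →
      Set.ncard {V : Finset (Fin n) | V.card = 3 ∧ (1 : ℝ) ≤ ∑ i ∈ V, x i} ≤
      Set.ncard {V : Finset (Fin n) | V.card = 3 ∧ (1 : ℝ) ≤ ∑ i ∈ V,
            (if i.val < min n ⌊h * (j : ℝ)⌋₊ then (1 : ℝ) / (j : ℝ) else 0)} := by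
  set N := ⌊h * ((3 : ℕ) : ℝ)⌋₊ with hNdef
  have hpos : 0 ≤ h * ((3 : ℕ) : ℝ) := by push_cast; linarith
  have hN1 : (N : ℝ) ≤ h * ((3 : ℕ) : ℝ) := Nat.floor_le hpos
  have hN2 : h * ((3 : ℕ) : ℝ) < N + 1 := Nat.lt_floor_add_one _
  push_cast at hN1 hN2
  have hN87 : 87 ≤ N := by
    rw [hNdef]
    apply Nat.le_floor
    push_cast
    linarith
  have hs : ⌊h * ((1 : ℕ) : ℝ)⌋₊ = N / 3 := by
    rw [hNdef, ← Nat.floor_div_natCast]
    congr 1
    push_cast
    ring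
  have hcard : (univ : Finset (Fin n)).card = n := by rw [card_univ, Fintype.card_fin]
  rcases Nat.lt_or_ge N n with hn | hn
  · obtain ⟨k, rfl⟩ := Nat.exists_eq_add_of_lt hn
    rcases le_total (AA ((N : ℝ) + ((k + 1 : ℕ) : ℝ)) ((N / 3 : ℕ) : ℝ)) (C3 N) with hm | hm
    · refine ⟨3, by norm_num, le_rfl, ?_⟩
      intro x hx hsum
      have hb := bound N (k + 1) hN87 x univ (by rw [hcard]; ring) (fun i _ => hx i)
        (by rw [hsum]; linarith)
      rw [ncard_eq_cnt, ncard_eq_cnt]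
      rw [max_eq_left hm, ← C3_nat] at hb
      have hb' : cnt 1 3 x univ ≤ N.choose 3 := by exact_mod_cast hb
      refine hb'.trans ?_
      rw [min_eq_right hn.le]
      exact cnt_third hn.le
    · refine ⟨1, le_rfl, by norm_num, ?_⟩
      intro x hx hsum
      have hb := bound N (k + 1) hN87 x univ (by rw [hcard]; ring) (fun i _ => hx i)
        (by rw [hsum]; linarith)
      rw [ncard_eq_cnt, ncard_eq_cnt, hs]
      rw [max_eq_right hm] at hb
      have hsn : N / 3 ≤ N + k + 1 := by omega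
      rw [min_eq_right hsn]
      have hc := cnt_one_dist hsn
      have e1 : AA ((N : ℝ) + ((k + 1 : ℕ) : ℝ)) ((N / 3 : ℕ) : ℝ)
          = ((N + k + 1).choose 3 : ℕ) - ((N + k + 1 - N / 3).choose 3 : ℕ) := by
        rw [C3_nat, C3_nat, Nat.cast_sub hsn]
        unfold AA
        push_cast
        rw [show (N : ℝ) + ((k : ℝ) + 1) = N + k + 1 by ring]
      have hc' : ((N + k + 1).choose 3 : ℝ)
          ≤ cnt 1 3 (fun i : Fin (N + k + 1) => if i.val < N / 3 then (1 : ℝ) / ((1 : ℕ) : ℝ)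
            else 0) univ + ((N + k + 1 - N / 3).choose 3 : ℕ) := by exact_mod_cast hc
      rw [e1] at hb
      have : (cnt 1 3 x univ : ℝ)
          ≤ cnt 1 3 (fun i : Fin (N + k + 1) => if i.val < N / 3 then (1 : ℝ) / ((1 : ℕ) : ℝ)
            else 0) univ := by linarith
      exact_mod_cast this
  · refine ⟨3, by norm_num, le_rfl, ?_⟩
    intro x hx hsum
    rw [ncard_eq_cnt, ncard_eq_cnt, min_eq_left hn]
    refine le_trans ?_ (cnt_third le_rfl)
    have := cnt_le_choose 1 3 x univ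
    rwa [hcard] at this

end K3
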