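import Pool.Agent.Helper46.K3.Defs

set_option autoImplicit false

namespace K3

theorem split3 (N : ℕ) (hN : 3 ≤ N) : ∃ s : ℕ, 1 ≤ s ∧ N / 3 = s ∧ (N = 3 * s ∨ N = 3 * s + 1 ∨ N = 3 * s + 2) :=
  ⟨N / 3, by omega, rfl, by omega⟩

theorem condA (N : ℕ) (hN : 3 ≤ N) (t : ℝ) (ht : Om N t) :
    ((N : ℝ) - 2 + t) + max (bI ((N : ℝ) - 2) t) (bII ((N : ℝ) - 2) t)
      ≤ AA (N + t) ((N / 3 : ℕ) : ℝ) - AA ((N : ℝ) - 3 + (t - 1 / 5)) (((N / 3 : ℕ) : ℝ) - 1) := by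
  obtain ⟨s, hs, h3, h⟩ := split3 N hN
  rw [h3]
  have hs' : (1 : ℝ) ≤ s := by exact_mod_cast hs
  obtain ⟨hu, hv⟩ := ht
  rcases le_total (bI ((N : ℝ) - 2) t) (bII ((N : ℝ) - 2) t) with hm | hm
  · rw [max_eq_right hm]
    clear hm
    rcases h with rfl | rfl | rfl
    all_goals
      push_cast at hu hv ⊢
      unfold AA C3 bII
      have h1 := mul_nonneg (sub_nonneg.2 hs') (sub_nonneg.2 hu)
      have h2 := mul_nonneg (sub_nonneg.2 hs') (sub_nonneg.2 hv)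
      have h4 := mul_nonneg (sub_nonneg.2 hu) (sub_nonneg.2 hv)
      have h5 := mul_nonneg (sub_nonneg.2 hu) (sub_nonneg.2 hu)
      have h6 := mul_nonneg (sub_nonneg.2 hv) (sub_nonneg.2 hv)
      nlinarith [h1, h2, h4, h5, h6, sq_nonneg ((s : ℝ) - 8)]
  · rw [max_eq_left hm]
    clear hm
    rcases h with rfl | rfl | rfl
    all_goals
      push_cast at hu hv ⊢
      unfold AA C3 bI C2
      have h1 := mul_nonneg (sub_nonneg.2 hs') (sub_nonneg.2 hu)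
      have h5 := mul_nonneg (sub_nonneg.2 hu) (sub_nonneg.2 hu)
      nlinarith [h1, h5, sq_nonneg ((s : ℝ) - 8)]

end K3
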