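import Pool.Agent.Helper46.K3.NumA

set_option autoImplicit false

namespace K3

theorem condC (N : ℕ) (hN : 3 ≤ N) (t : ℝ) (ht : Om N t) (ht2 : t ≤ 17 * (N : ℝ) / 100) :
    ((N : ℝ) - 2 + t) + max (bI ((N : ℝ) - 2) t) (bII ((N : ℝ) - 2) t)
      ≤ C3 N - C3 ((N : ℝ) - 3) := by
  obtain ⟨s, -, -, h⟩ := split3 N hN
  obtain ⟨hu, -⟩ := ht
  have hs : (23 : ℝ) ≤ s := by
    rcases h with rfl | rfl | rfl <;> push_cast at hu ht2 <;> linarith
  rcases le_total (bI ((N : ℝ) - 2) t) (bII ((N : ℝ) - 2) t) with hm | hm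
  · rw [max_eq_right hm]
    clear hm
    rcases h with rfl | rfl | rfl
    all_goals
      push_cast at hu ht2 ⊢
      unfold C3 bII
      have h1 := mul_nonneg (sub_nonneg.2 hs) (sub_nonneg.2 ht2)
      have h2 := mul_nonneg (sub_nonneg.2 hs) (sub_nonneg.2 hs)
      nlinarith [h1, h2]
  · rw [max_eq_left hm]
    clear hm
    rcases h with rfl | rfl | rfl
    all_goals
      push_cast at hu ht2 ⊢
      unfold C3 bI C2
      have h1 := mul_nonneg (sub_nonneg.2 hs) (sub_nonneg.2 ht2)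
      have h2 := mul_nonneg (sub_nonneg.2 hs) (sub_nonneg.2 hs)
      nlinarith [h1, h2]

theorem condUp (N : ℕ) (hN : 3 ≤ N) (t : ℝ) (ht : Om N t) (ht2 : 17 * (N : ℝ) / 100 ≤ t) :
    C3 ((N : ℝ) - 3) ≤ AA ((N : ℝ) - 3 + (t - 1 / 5)) (((N / 3 : ℕ) : ℝ) - 1) := by
  obtain ⟨s, hs, h3, h⟩ := split3 N hN
  rw [h3]
  have hs' : (0 : ℝ) ≤ (s : ℝ) - 1 := by
    have : (1 : ℝ) ≤ s := by exact_mod_cast hs
    linarith
  obtain ⟨hu, -⟩ := ht
  rcases h with rfl | rfl | rfl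
  · push_cast at hu ht2 ⊢
    have e : AA (3 * (s : ℝ) - 3 + (t - 1 / 5)) ((s : ℝ) - 1) - C3 (3 * (s : ℝ) - 3)
        = ((s : ℝ) - 1) * (-(4 / 3) * (s : ℝ) ^ 2 + 5 / 2 * s * t + 25 / 6 * s + 1 / 2 * t ^ 2
          - 37 / 10 * t - 82 / 25) := by
      unfold AA C3
      ring
    have h2 := mul_nonneg hs' (sub_nonneg.2 ht2)
    have h4 := mul_nonneg (sub_nonneg.2 ht2) (sub_nonneg.2 ht2)
    have h5 := mul_nonneg (sub_nonneg.2 hu) (sub_nonneg.2 ht2)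
    have h6 := mul_nonneg hs' hs'
    have key : 0 ≤ -(4 / 3) * (s : ℝ) ^ 2 + 5 / 2 * s * t + 25 / 6 * s + 1 / 2 * t ^ 2
          - 37 / 10 * t - 82 / 25 := by
      nlinarith [h2, h4, h5, h6]
    have := mul_nonneg hs' key
    linarith
  · push_cast at hu ht2 ⊢
    have e : AA (3 * (s : ℝ) + 1 - 3 + (t - 1 / 5)) ((s : ℝ) - 1) - C3 (3 * (s : ℝ) + 1 - 3)
        = ((s : ℝ) - 1) * (-(4 / 3) * (s : ℝ) ^ 2 + 5 / 2 * s * t + 13 / 6 * s + 1 / 2 * t ^ 2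
          - 27 / 10 * t - 12 / 25) := by
      unfold AA C3
      ring
    have h2 := mul_nonneg hs' (sub_nonneg.2 ht2)
    have h4 := mul_nonneg (sub_nonneg.2 ht2) (sub_nonneg.2 ht2)
    have h5 := mul_nonneg (sub_nonneg.2 hu) (sub_nonneg.2 ht2)
    have h6 := mul_nonneg hs' hs'
    have key : 0 ≤ -(4 / 3) * (s : ℝ) ^ 2 + 5 / 2 * s * t + 13 / 6 * s + 1 / 2 * t ^ 2
          - 27 / 10 * t - 12 / 25 := by
      nlinarith [h2, h4, h5, h6]
    have := mul_nonneg hs' key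
    linarith
  · push_cast at hu ht2 ⊢
    have e : AA (3 * (s : ℝ) + 2 - 3 + (t - 1 / 5)) ((s : ℝ) - 1) - C3 (3 * (s : ℝ) + 2 - 3)
        = ((s : ℝ) - 1) * (-(4 / 3) * (s : ℝ) ^ 2 + 5 / 2 * s * t + 1 / 6 * s + 1 / 2 * t ^ 2
          - 17 / 10 * t + 8 / 25) := by
      unfold AA C3
      ring
    have h2 := mul_nonneg hs' (sub_nonneg.2 ht2)
    have h4 := mul_nonneg (sub_nonneg.2 ht2) (sub_nonneg.2 ht2)
    have h5 := mul_nonneg (sub_nonneg.2 hu) (sub_nonneg.2 ht2)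
    have h6 := mul_nonneg hs' hs'
    have key : 0 ≤ -(4 / 3) * (s : ℝ) ^ 2 + 5 / 2 * s * t + 1 / 6 * s + 1 / 2 * t ^ 2
          - 17 / 10 * t + 8 / 25 := by
      nlinarith [h2, h4, h5, h6]
    have := mul_nonneg hs' key
    linarith

end K3
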