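import Pool.Agent.Helper46.K3.NumA

set_option autoImplicit false

namespace K3

theorem condS (N : ℕ) (hN : 3 ≤ N) (t : ℝ) (ht : Om N t) :
    C2 ((N : ℝ) - 1 + t) + max (C3 ((N : ℝ) - 3)) (AA ((N : ℝ) - 3 + (t + 2)) (((N / 3 : ℕ) : ℝ) - 1))
      ≤ FF N t := by
  unfold FF
  obtain ⟨s, hs, h3, h⟩ := split3 N hN
  rw [h3]
  have hs' : (1 : ℝ) ≤ s := by exact_mod_cast hs
  obtain ⟨hu, hv⟩ := ht
  have hA : C2 ((N : ℝ) - 1 + t) + AA ((N : ℝ) - 3 + (t + 2)) ((s : ℝ) - 1) = AA (N + t) s := by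
    unfold C2 AA C3
    ring
  rcases le_total (C3 ((N : ℝ) - 3)) (AA ((N : ℝ) - 3 + (t + 2)) ((s : ℝ) - 1)) with hm | hm
  · rw [max_eq_right hm, hA]
    exact le_max_right _ _
  · rcases Nat.lt_or_ge s 2 with hs2 | hs2
    · -- s = 1
      have hs1 : s = 1 := by omega
      subst hs1
      have e1 : C3 ((N : ℝ) - 3) = 0 := by
        unfold C3
        rcases h with rfl | rfl | rfl <;> norm_num
      have e2 : AA ((N : ℝ) - 3 + (t + 2)) (((1 : ℕ) : ℝ) - 1) = 0 := by
        unfold AA; simp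
      rw [e1, e2, max_self]
      rw [e2] at hA
      rw [hA]
      exact le_max_right _ _
    · rw [max_eq_left hm]
      have hs2' : (2 : ℝ) ≤ s := by exact_mod_cast hs2
      refine le_trans ?_ (le_max_left _ _)
      have h2 : t ≤ (N : ℝ) / 2 := by
        by_contra hcon
        push Not at hcon
        have hfac : AA ((N : ℝ) - 3 + (t + 2)) ((s : ℝ) - 1) - C3 ((N : ℝ) - 3) > 0 := by
          unfold AA C3
          rcases h with rfl | rfl | rfl
          · push_cast at hcon ⊢
            have hQ : 0 < 3 * (3 * (s : ℝ) - 1 + t) * ((3 * s - 1 + t) - (s - 1) - 2)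
                + (s - 1) ^ 2 + 3 * (s - 1) + 2 - 3 * (3 * s - 4) * (3 * s - 5) := by
              nlinarith
            have := mul_pos (show (0 : ℝ) < s - 1 by linarith) hQ
            nlinarith
          · push_cast at hcon ⊢
            have hQ : 0 < 3 * (3 * (s : ℝ) + t) * ((3 * s + t) - (s - 1) - 2)
                + (s - 1) ^ 2 + 3 * (s - 1) + 2 - 3 * (3 * s - 2) * (3 * s - 4) := by
              nlinarith
            have := mul_pos (show (0 : ℝ) < s - 1 by linarith) hQ
            nlinarith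
          · push_cast at hcon ⊢
            have hQ : 0 < 3 * (3 * (s : ℝ) + 1 + t) * ((3 * s + 1 + t) - (s - 1) - 2)
                + (s - 1) ^ 2 + 3 * (s - 1) + 2 - 3 * (3 * s - 1) * (3 * s - 2) := by
              nlinarith
            have := mul_pos (show (0 : ℝ) < s - 1 by linarith) hQ
            nlinarith
        linarith
      have hN17 : (17 : ℝ) ≤ N := by linarith
      unfold C2 C3
      nlinarith

theorem condEnd (N : ℕ) (hN : 87 ≤ N) (s : ℝ) (hs : 3 * s ≤ N) (hs0 : 0 ≤ s) :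
    AA ((N : ℝ) + (4 * (N : ℝ) / 25 - 1 / 2)) s ≤ C3 N := by
  have hN' : (87 : ℝ) ≤ N := by exact_mod_cast hN
  set n : ℝ := (N : ℝ) with hn
  have hmono : AA (n + (4 * n / 25 - 1 / 2)) s ≤ AA (n + (4 * n / 25 - 1 / 2)) (n / 3) := by
    unfold AA C3
    set u := n + (4 * n / 25 - 1 / 2) with hu
    have h1 : 2 ≤ u - n / 3 := by rw [hu]; linarith
    have h2 : u - n / 3 ≤ u - s := by linarith
    set a := u - n / 3
    set b := u - s
    have : a * (a - 1) * (a - 2) ≤ b * (b - 1) * (b - 2) := by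
      have e1 : a * (a - 1) ≤ b * (b - 1) := by nlinarith
      have e2 : 0 ≤ a * (a - 1) := by nlinarith
      nlinarith
    linarith
  refine hmono.trans ?_
  unfold AA C3
  have h2 : 0 ≤ (n - 87) * n := mul_nonneg (by linarith) (by linarith)
  have h3 : 0 ≤ (n - 87) * n ^ 2 := mul_nonneg (by linarith) (by positivity)
  nlinarith

end K3
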