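import Pool.Agent.Helper46.K3.Defs

/-!
Row B: the three-threshold pair lemma.
-/

set_option autoImplicit false

namespace K3

open Finset

variable {ι : Type*} [DecidableEq ι]

/-- The double sum over ordered pairs of distinct elements. -/
noncomputable def DD (f : ι → ι → ℝ) (R : Finset ι) : ℝ :=
  ∑ i ∈ R, ∑ j ∈ R, f i j - ∑ i ∈ R, f i i

theorem DD_insert (f : ι → ι → ℝ) (hf : ∀ i j, f i j = f j i) {a : ι} {R : Finset ι}
    (ha : a ∉ R) : DD f (insert a R) = DD f R + 2 * ∑ j ∈ R, f a j := by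
  unfold DD
  rw [Finset.sum_insert ha, Finset.sum_insert ha, Finset.sum_insert ha]
  have h1 : ∑ i ∈ R, ∑ j ∈ insert a R, f i j = ∑ j ∈ R, f a j + ∑ i ∈ R, ∑ j ∈ R, f i j := by
    rw [← Finset.sum_add_distrib]
    refine Finset.sum_congr rfl fun i _ => ?_
    rw [Finset.sum_insert ha, hf i a]
  rw [h1]
  ring

theorem DD_mono {f g : ι → ι → ℝ} {R : Finset ι}
    (h : ∀ i ∈ R, ∀ j ∈ R, i ≠ j → f i j ≤ g i j) : DD f R ≤ DD g R := by
  have key : ∀ f : ι → ι → ℝ, DD f R = ∑ i ∈ R, ∑ j ∈ R.erase i, f i j := by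
    intro f
    unfold DD
    rw [← Finset.sum_sub_distrib]
    refine Finset.sum_congr rfl fun i hi => ?_
    rw [← Finset.sum_erase_add _ _ hi]
    ring
  rw [key, key]
  refine Finset.sum_le_sum fun i hi => Finset.sum_le_sum fun j hj => ?_
  exact h i hi j (Finset.mem_of_mem_erase hj) (Finset.ne_of_mem_erase hj).symm

omit [DecidableEq ι] in
theorem cnt_one (c : ℝ) (h : ι → ℝ) (R : Finset ι) :
    (cnt c 1 h R : ℝ) = ∑ i ∈ R, if c ≤ h i then (1 : ℝ) else 0 := by
  have h1 : cnt c 1 h R = (R.filter (fun i => c ≤ h i)).card := by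
    unfold cnt
    rw [Finset.powersetCard_one, Finset.filter_map, Finset.card_map]
    congr 1
    ext i
    simp
  rw [h1, Finset.card_filter]
  push_cast
  rfl

theorem cnt_two (c : ℝ) (h : ι → ℝ) (R : Finset ι) :
    2 * (cnt c 2 h R : ℝ) = DD (fun i j => if c ≤ h i + h j then (1 : ℝ) else 0) R := by
  induction R using Finset.induction_on with
  | empty => simp [cnt, DD]
  | insert a R ha ih =>
    rw [DD_insert _ (fun i j => by rw [add_comm]) ha, ← ih]
    have h1 : cnt c 2 h (insert a R) =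
        cnt c 2 h R + (R.filter (fun j => c ≤ h a + h j)).card := by
      unfold cnt
      rw [show (2 : ℕ) = 1 + 1 from rfl, Finset.powersetCard_succ_insert ha, Finset.filter_union,
        Finset.card_union_of_disjoint]
      · congr 1
        rw [Finset.powersetCard_one, Finset.filter_image]
        rw [Finset.card_image_of_injOn]
        · rw [Finset.filter_map, Finset.card_map]
          congr 1
          ext j
          simp only [Finset.mem_filter, Function.comp_apply, Function.Embedding.coeFn_mk]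
          refine and_congr_right fun hj => ?_
          have hne : a ∉ ({j} : Finset ι) := by
            rw [Finset.mem_singleton]
            rintro rfl
            exact ha hj
          rw [Finset.sum_insert hne, Finset.sum_singleton]
        · intro U hU V hV hUV
          rw [Finset.mem_coe, Finset.mem_filter, Finset.mem_map] at hU hV
          obtain ⟨⟨u, hu, rfl⟩, _⟩ := hU
          obtain ⟨⟨v, hv, rfl⟩, _⟩ := hV
          simp only [Function.Embedding.coeFn_mk] at hUV ⊢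
          have hu' : u ∈ insert a ({v} : Finset ι) := by
            rw [← hUV]; simp
          rw [Finset.mem_insert, Finset.mem_singleton] at hu'
          rcases hu' with rfl | rfl
          · exact absurd hu ha
          · rfl
      · rw [Finset.disjoint_left]
        intro V hV hV'
        rw [Finset.mem_filter, Finset.mem_powersetCard] at hV
        rw [Finset.mem_filter, Finset.mem_image] at hV'
        obtain ⟨⟨U, _, rfl⟩, _⟩ := hV'
        exact ha (hV.1.1 (Finset.mem_insert_self _ _))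
    rw [h1]
    push_cast
    rw [Finset.card_filter]
    push_cast
    ring

/-! ### pointwise inequalities -/

/-- The three-threshold weight of a pair. -/
noncomputable def A2 (x a b : ℝ) : ℝ :=
  (if x ≤ a + b then (1 : ℝ) else 0) + (if 1 - x ≤ a + b then (1 : ℝ) else 0)
    + 6 / 5 * (if 1 ≤ a + b then (1 : ℝ) else 0)

/-- The two-threshold weight of an element. -/
noncomputable def A1 (x a : ℝ) : ℝ :=
  (if x ≤ a then (1 : ℝ) else 0) + (if 1 - x ≤ a then (1 : ℝ) else 0)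

theorem two_WW (x : ℝ) (h : ι → ℝ) (R : Finset ι) (t : ℝ) :
    2 * WW x h R t = DD (fun i j => A2 x (h i) (h j)) R + 2 * t * ∑ i ∈ R, A1 x (h i) := by
  unfold WW
  have e1 : DD (fun i j => A2 x (h i) (h j)) R =
      DD (fun i j => if x ≤ h i + h j then (1 : ℝ) else 0) R
      + DD (fun i j => if 1 - x ≤ h i + h j then (1 : ℝ) else 0) R
      + 6 / 5 * DD (fun i j => if 1 ≤ h i + h j then (1 : ℝ) else 0) R := by
    unfold DD A2
    simp only [Finset.sum_add_distrib, ← Finset.mul_sum]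
    ring
  have e2 : ∑ i ∈ R, A1 x (h i) = (cnt x 1 h R : ℝ) + cnt (1 - x) 1 h R := by
    unfold A1
    rw [Finset.sum_add_distrib, cnt_one, cnt_one]
  rw [e1, e2, ← cnt_two, ← cnt_two, ← cnt_two]
  ring

/-- Range I. -/
theorem A2_le_I {x a b q : ℝ} (hx : x ≤ 4 / 15) (ha : 0 ≤ a) (hb : 0 ≤ b) (ha1 : a < 1)
    (hb1 : b < 1) (hq0 : 0 ≤ q) (hq : q ≤ 77 / 50) :
    A2 x a b ≤ 1 + 11 / 5 * (a + b) - q * ((a + b) * (1 - (a + b)))
      + (11 / 5 + 2 * q) * ((1 - (a + b)) * (a * b)) := by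
  have hab : 0 ≤ a * b := mul_nonneg ha hb
  have hw0 : 0 ≤ a + b := by linarith
  unfold A2
  rcases lt_or_ge (a + b) 1 with h1 | h1
  · -- `w < 1`
    have hc : 0 ≤ (11 / 5 + 2 * q) * ((1 - (a + b)) * (a * b)) := by
      apply mul_nonneg (by linarith)
      exact mul_nonneg (by linarith) hab
    rw [if_neg (not_le.2 h1)]
    have hq1 : q * ((a + b) * (1 - (a + b))) ≤ 77 / 50 * ((a + b) * (1 - (a + b))) :=
      mul_le_mul_of_nonneg_right hq (mul_nonneg hw0 (by linarith))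
    rcases lt_or_ge (a + b) (1 - x) with h2 | h2
    · rw [if_neg (not_le.2 h2)]
      have h3 : (if x ≤ a + b then (1 : ℝ) else 0) ≤ 1 := by split_ifs <;> norm_num
      nlinarith [mul_nonneg hw0 hw0]
    · rw [if_pos h2]
      have h3 : (if x ≤ a + b then (1 : ℝ) else 0) ≤ 1 := by split_ifs <;> norm_num
      have h4 : 11 / 15 ≤ a + b := by linarith
      nlinarith [mul_nonneg (by linarith : (0 : ℝ) ≤ a + b - 11 / 15) hw0]
  · rw [if_pos h1]
    have h3 : (if x ≤ a + b then (1 : ℝ) else 0) ≤ 1 := by split_ifs <;> norm_num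
    have h4 : (if 1 - x ≤ a + b then (1 : ℝ) else 0) ≤ 1 := by split_ifs <;> norm_num
    -- `2.2 + q w >= (2.2 + 2 q) a b`
    have h5 : (11 / 5 + 2 * q) * (a * b) ≤ 11 / 5 + q * (a + b) := by
      have h6 : a * b ≤ 1 := by nlinarith
      have h7 : 2 * (a * b) ≤ a + b := by nlinarith
      nlinarith
    have h8 : 0 ≤ (a + b - 1) * (11 / 5 + q * (a + b) - (11 / 5 + 2 * q) * (a * b)) :=
      mul_nonneg (by linarith) (by linarith)
    nlinarith

theorem A1_le_I {x a q : ℝ} (hx : x ≤ 4 / 15) (ha : 0 ≤ a) (ha1 : a < 1)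
    (hq : q ≤ 77 / 50) :
    A1 x a ≤ 1 + 9 / 5 * a - q * (a * (1 - a)) := by
  unfold A1
  have hq1 : q * (a * (1 - a)) ≤ 77 / 50 * (a * (1 - a)) :=
    mul_le_mul_of_nonneg_right hq (mul_nonneg ha (by linarith))
  have h3 : (if x ≤ a then (1 : ℝ) else 0) ≤ 1 := by split_ifs <;> norm_num
  rcases lt_or_ge a (1 - x) with h2 | h2
  · rw [if_neg (not_le.2 h2)]
    nlinarith [mul_nonneg ha ha]
  · rw [if_pos h2]
    have h4 : 11 / 15 ≤ a := by linarith
    nlinarith [mul_nonneg (by linarith : (0 : ℝ) ≤ a - 11 / 15) ha]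

/-- Range II. -/
theorem A2_le_II {x a b : ℝ} (hx : 4 / 15 ≤ x) (hx2 : x ≤ 1 / 2) (ha : 0 ≤ a) (hb : 0 ≤ b)
    (ha1 : a < 1) (hb1 : b < 1) :
    A2 x a b ≤ 4 * (a + b) - 16 / 5 * (a * b)
      + 2 / 5 * (if a < x ∧ b < x then a + b else 0) := by
  have hw0 : 0 ≤ a + b := by linarith
  have hab : 4 * (a * b) ≤ (a + b) ^ 2 := by nlinarith [sq_nonneg (a - b)]
  have hab0 : 0 ≤ a * b := mul_nonneg ha hb
  have hE : 0 ≤ 2 / 5 * (if a < x ∧ b < x then a + b else 0) := by
    split_ifs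
    · positivity
    · simp
  unfold A2
  rcases lt_or_ge (a + b) 1 with h1 | h1
  · rw [if_neg (not_le.2 h1)]
    rcases lt_or_ge (a + b) (1 - x) with h2 | h2
    · rw [if_neg (not_le.2 h2)]
      rcases lt_or_ge (a + b) x with h3 | h3
      · rw [if_neg (not_le.2 h3)]
        nlinarith
      · rw [if_pos h3]
        nlinarith
    · rw [if_pos h2]
      have h3 : (if x ≤ a + b then (1 : ℝ) else 0) ≤ 1 := by split_ifs <;> norm_num
      by_cases hs : a < x ∧ b < x
      · rw [if_pos hs]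
        have h4 : 1 / 2 ≤ a + b := by linarith
        nlinarith
      · rw [if_neg hs]
        -- one of them is at least `x`
        have key : ∀ u v : ℝ, 0 ≤ u → 0 ≤ v → u < 1 → x ≤ u → 1 - x ≤ u + v → 
            2 ≤ 4 * (u + v) - 16 / 5 * (u * v) := by
          intro u v hu hv hu1 hxu huv
          -- `v ≥ 1 - x - u`
          rcases le_or_gt (1 - x) u with h5 | h5
          · nlinarith [mul_nonneg hv (by linarith : (0 : ℝ) ≤ 1 - u)]
          · -- replace `v` by `1 - x - u`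
            have h6 : 0 ≤ (v - (1 - x - u)) * (4 - 16 / 5 * u) :=
              mul_nonneg (by linarith) (by linarith)
            -- `4 (1-x) - 3.2 u (1-x-u) ≥ 2`
            have h7 : 2 ≤ 4 * (1 - x) - 16 / 5 * (u * (1 - x - u)) := by
              rcases le_or_gt x (1 / 3) with h8 | h8
              · nlinarith [sq_nonneg (2 * u - (1 - x))]
              · nlinarith [mul_nonneg (by linarith : (0 : ℝ) ≤ u - x) (by linarith : (0 : ℝ) ≤ u - (1 - 2 * x)), mul_nonneg (by linarith : (0 : ℝ) ≤ 1 / 2 - x) (by linarith : (0 : ℝ) ≤ x)]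
            nlinarith
        rcases not_and_or.1 hs with h4 | h4
        · have := key a b ha hb ha1 (not_lt.1 h4) h2
          linarith
        · have := key b a hb ha hb1 (not_lt.1 h4) (by linarith)
          linarith
  · rw [if_pos h1]
    have h3 : (if x ≤ a + b then (1 : ℝ) else 0) ≤ 1 := by split_ifs <;> norm_num
    have h4 : (if 1 - x ≤ a + b then (1 : ℝ) else 0) ≤ 1 := by split_ifs <;> norm_num
    nlinarith

theorem A1_le_II {x a : ℝ} (hx : 4 / 15 ≤ x) (hx2 : x ≤ 1 / 2) :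
    A1 x a ≤ 4 * a - 4 * (if a < x then a else 0) := by
  unfold A1
  rcases lt_or_ge a x with h1 | h1
  · rw [if_neg (not_le.2 h1), if_pos h1, if_neg (by linarith)]
    linarith
  · rw [if_pos h1, if_neg (not_lt.2 h1)]
    rcases lt_or_ge a (1 - x) with h2 | h2
    · rw [if_neg (not_le.2 h2)]; linarith
    · rw [if_pos h2]; linarith

/-! ### the sums -/

omit [DecidableEq ι] in
theorem sum_cubic (h : ι → ℝ) (R : Finset ι) (c0 c1 c2 c3 : ℝ) :
    ∑ j ∈ R, (c0 + c1 * h j + c2 * h j ^ 2 + c3 * h j ^ 3) =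
      c0 * R.card + c1 * ∑ j ∈ R, h j + c2 * ∑ j ∈ R, h j ^ 2 + c3 * ∑ j ∈ R, h j ^ 3 := by
  rw [Finset.sum_add_distrib, Finset.sum_add_distrib, Finset.sum_add_distrib, ← Finset.mul_sum,
    ← Finset.mul_sum, ← Finset.mul_sum, Finset.sum_const, nsmul_eq_mul]
  ring

theorem WW_le_I (x : ℝ) (hx : x ≤ 4 / 15) (h : ι → ℝ) (R : Finset ι)
    (h0 : ∀ i ∈ R, 0 ≤ h i) (h1 : ∀ i ∈ R, h i < 1) (t : ℝ) (ht : 0 ≤ t) (q : ℝ)
    (hq0 : 0 ≤ q) (hq : q ≤ 77 / 50)
    (hqS : q * (R.card + t - 1 - 2 * ∑ i ∈ R, h i) = 11 / 5 * ∑ i ∈ R, h i) :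
    WW x h R t ≤ C2 R.card + R.card * t + 11 / 5 * (R.card + t) * (∑ i ∈ R, h i)
      - 11 / 10 * (∑ i ∈ R, h i) ^ 2 - 11 / 10 * (∑ i ∈ R, h i) - 2 / 5 * t * ∑ i ∈ R, h i := by
  set S1 := ∑ i ∈ R, h i with hS1
  set S2 := ∑ i ∈ R, h i ^ 2 with hS2
  set S3 := ∑ i ∈ R, h i ^ 3 with hS3
  set r : ℝ := (R.card : ℝ) with hr
  have key := two_WW x h R t
  -- the pairs
  have hp : DD (fun i j => A2 x (h i) (h j)) R ≤
      DD (fun i j => 1 + 11 / 5 * (h i + h j) - q * ((h i + h j) * (1 - (h i + h j)))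
        + (11 / 5 + 2 * q) * ((1 - (h i + h j)) * (h i * h j))) R :=
    DD_mono fun i hi j hj _ => A2_le_I hx (h0 i hi) (h0 j hj) (h1 i hi) (h1 j hj) hq0 hq
  -- the single elements
  have hs : ∑ i ∈ R, A1 x (h i) ≤ ∑ i ∈ R, (1 + (9 / 5 - q) * h i + q * h i ^ 2 + 0 * h i ^ 3) := by
    refine Finset.sum_le_sum fun i hi => ?_
    refine (A1_le_I hx (h0 i hi) (h1 i hi) hq).trans (le_of_eq ?_)
    ring
  rw [sum_cubic] at hs
  have e1 : DD (fun i j => 1 + 11 / 5 * (h i + h j) - q * ((h i + h j) * (1 - (h i + h j)))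
        + (11 / 5 + 2 * q) * ((1 - (h i + h j)) * (h i * h j))) R =
      r * (r - 1) + 22 / 5 * (r - 1) * S1 - 2 * q * ((r - 1) * S1 - (r - 2) * S2 - S1 ^ 2)
        + (11 / 5 + 2 * q) * (S1 ^ 2 - S2 - 2 * (S1 * S2 - S3)) := by
    unfold DD
    have e2 : ∀ i ∈ R, ∑ j ∈ R, (1 + 11 / 5 * (h i + h j)
        - q * ((h i + h j) * (1 - (h i + h j)))
        + (11 / 5 + 2 * q) * ((1 - (h i + h j)) * (h i * h j))) =
        (r + (11 / 5 - q) * S1 + q * S2)
          + ((11 / 5 - q) * r + (2 * q + (11 / 5 + 2 * q)) * S1 - (11 / 5 + 2 * q) * S2) * h i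
          + (q * r - (11 / 5 + 2 * q) * S1) * h i ^ 2 + 0 * h i ^ 3 := by
      intro i _
      have := sum_cubic h R (1 + (11 / 5 - q) * h i + q * h i ^ 2)
        ((11 / 5 - q) + (2 * q + (11 / 5 + 2 * q)) * h i - (11 / 5 + 2 * q) * h i ^ 2)
        (q - (11 / 5 + 2 * q) * h i) 0
      rw [← hS1, ← hS2, ← hS3, ← hr] at this
      refine Eq.trans (Finset.sum_congr rfl fun j _ => ?_) (this.trans ?_)
      · ring
      · ring
    rw [Finset.sum_congr rfl e2, sum_cubic]
    have e3 := sum_cubic h R 1 (22 / 5 - 2 * q) (4 * q + (11 / 5 + 2 * q))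
      (-2 * (11 / 5 + 2 * q))
    rw [← hS1, ← hS2, ← hS3, ← hr] at e3 ⊢
    have e4 : ∑ i ∈ R, (1 + 11 / 5 * (h i + h i) - q * ((h i + h i) * (1 - (h i + h i)))
        + (11 / 5 + 2 * q) * ((1 - (h i + h i)) * (h i * h i))) =
        ∑ j ∈ R, (1 + (22 / 5 - 2 * q) * h j + (4 * q + (11 / 5 + 2 * q)) * h j ^ 2
          + -2 * (11 / 5 + 2 * q) * h j ^ 3) :=
      Finset.sum_congr rfl fun j _ => by ring
    rw [e4, e3]
    ring
  rw [e1] at hp
  rw [← hS1, ← hS2, ← hS3, ← hr] at hs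
  have hS21 : S3 ≤ S1 := by
    rw [hS3, hS1]
    refine Finset.sum_le_sum fun i hi => ?_
    have a0 := h0 i hi
    have a1 := (h1 i hi).le
    have : h i ^ 3 ≤ h i ^ 1 := pow_le_pow_of_le_one a0 a1 (by norm_num)
    simpa using this
  have hS32 : S3 ≤ S2 := by
    rw [hS3, hS2]
    refine Finset.sum_le_sum fun i hi => ?_
    exact pow_le_pow_of_le_one (h0 i hi) (h1 i hi).le (by norm_num)
  have h2 : 0 ≤ q * (S2 - S3) := mul_nonneg hq0 (by linarith)
  unfold C2
  have h3 : q * (r + t - 1 - 2 * S1) * (S1 - S2) = 11 / 5 * S1 * (S1 - S2) := by rw [hqS]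
  nlinarith

theorem WW_le_II (x : ℝ) (hx : 4 / 15 ≤ x) (hx2 : x ≤ 1 / 2) (h : ι → ℝ) (R : Finset ι)
    (h0 : ∀ i ∈ R, 0 ≤ h i) (h1 : ∀ i ∈ R, h i < 1) (t : ℝ) (ht : 0 ≤ t)
    (htc : (R.card : ℝ) - 1 ≤ 10 * t) :
    WW x h R t ≤ 4 * (R.card + t - 1) * (∑ i ∈ R, h i) - 8 / 5 * (∑ i ∈ R, h i) ^ 2
      + 8 / 5 * (∑ i ∈ R, h i) := by
  set S1 := ∑ i ∈ R, h i with hS1
  set S2 := ∑ i ∈ R, h i ^ 2 with hS2
  set r : ℝ := (R.card : ℝ) with hr
  set σ := ∑ i ∈ R, (if h i < x then h i else 0) with hσ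
  have key := two_WW x h R t
  have hp : DD (fun i j => A2 x (h i) (h j)) R ≤
      DD (fun i j => 4 * (h i + h j) - 16 / 5 * (h i * h j)
        + 2 / 5 * (if h i < x ∧ h j < x then h i + h j else 0)) R :=
    DD_mono fun i hi j hj _ => A2_le_II hx hx2 (h0 i hi) (h0 j hj) (h1 i hi) (h1 j hj)
  have hs : ∑ i ∈ R, A1 x (h i) ≤ 4 * S1 - 4 * σ := by
    rw [hS1, hσ, Finset.mul_sum, Finset.mul_sum, ← Finset.sum_sub_distrib]
    exact Finset.sum_le_sum fun i hi => A1_le_II hx hx2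
  have e1 : DD (fun i j => 4 * (h i + h j) - 16 / 5 * (h i * h j)
        + 2 / 5 * (if h i < x ∧ h j < x then h i + h j else 0)) R =
      8 * (r - 1) * S1 - 16 / 5 * (S1 ^ 2 - S2)
        + 2 / 5 * DD (fun i j => if h i < x ∧ h j < x then h i + h j else 0) R := by
    have e2 : DD (fun i j => 4 * (h i + h j) - 16 / 5 * (h i * h j)) R =
        8 * (r - 1) * S1 - 16 / 5 * (S1 ^ 2 - S2) := by
      unfold DD
      have e3 : ∀ i ∈ R, ∑ j ∈ R, (4 * (h i + h j) - 16 / 5 * (h i * h j)) =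
          4 * S1 + (4 * r - 16 / 5 * S1) * h i + 0 * h i ^ 2 + 0 * h i ^ 3 := by
        intro i _
        have := sum_cubic h R (4 * h i) (4 - 16 / 5 * h i) 0 0
        rw [← hS1, ← hS2, ← hr] at this
        refine Eq.trans (Finset.sum_congr rfl fun j _ => ?_) (this.trans ?_)
        · ring
        · ring
      rw [Finset.sum_congr rfl e3, sum_cubic]
      have e4 := sum_cubic h R 0 8 (-16 / 5) 0
      rw [← hS1, ← hS2, ← hr] at e4 ⊢
      have e5 : ∑ i ∈ R, (4 * (h i + h i) - 16 / 5 * (h i * h i)) =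
          ∑ j ∈ R, (0 + 8 * h j + -16 / 5 * h j ^ 2 + 0 * h j ^ 3) :=
        Finset.sum_congr rfl fun j _ => by ring
      rw [e5, e4]
      ring
    rw [← e2]
    unfold DD
    simp only [Finset.sum_add_distrib, ← Finset.mul_sum]
    ring
  rw [e1] at hp
  -- the small pairs
  have hsm : DD (fun i j => if h i < x ∧ h j < x then h i + h j else 0) R ≤ 2 * (r - 1) * σ := by
    have h2 : DD (fun i j => if h i < x ∧ h j < x then h i + h j else 0) R ≤
        DD (fun i j => (if h i < x then h i else 0) + (if h j < x then h j else 0)) R := by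
      refine DD_mono fun i hi j hj _ => ?_
      have a0 := h0 i hi
      have b0 := h0 j hj
      by_cases ha : h i < x <;> by_cases hb : h j < x <;> simp [ha, hb, a0, b0]
    refine h2.trans (le_of_eq ?_)
    unfold DD
    simp only [Finset.sum_add_distrib, Finset.sum_const, nsmul_eq_mul, ← Finset.mul_sum]
    rw [← hσ, ← hr]
    ring
  have hσ0 : 0 ≤ σ := Finset.sum_nonneg fun i hi => by
    split_ifs
    · exact h0 i hi
    · exact le_rfl
  have hS21 : S2 ≤ S1 := by
    rw [hS2, hS1]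
    refine Finset.sum_le_sum fun i hi => ?_
    have : h i ^ 2 ≤ h i ^ 1 := pow_le_pow_of_le_one (h0 i hi) (h1 i hi).le (by norm_num)
    simpa using this
  have h3 : (r - 1) * σ ≤ 10 * t * σ := mul_le_mul_of_nonneg_right htc hσ0
  nlinarith

/-- The three-threshold pair lemma. -/
theorem WW_le (x : ℝ) (hx0 : 0 < x) (hx1 : x ≤ 1 / 2) (h : ι → ℝ) (R : Finset ι)
    (h0 : ∀ i ∈ R, 0 ≤ h i) (h1 : ∀ i ∈ R, h i < 1) (P : ℕ) (hP : R.card = P)
    (hsum : ∑ i ∈ R, h i ≤ (P : ℝ) / 3) (t : ℝ) (ht : Om (P + 2) t) :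
    WW x h R t ≤ max (bI P t) (bII P t) := by
  obtain ⟨ht1, ht2⟩ := ht
  push_cast at ht1 ht2
  subst hP
  set P : ℝ := (R.card : ℝ) with hPdef
  have hP0 : 0 ≤ P := Nat.cast_nonneg _
  set S := ∑ i ∈ R, h i with hS
  have hS0 : 0 ≤ S := Finset.sum_nonneg h0
  have ht0 : 0 ≤ t := by linarith
  rcases le_or_gt x (4 / 15) with hx | hx
  · -- range I
    refine le_trans ?_ (le_max_left _ _)
    have hden : 0 < P + t - 1 - 2 * S := by linarith
    set q : ℝ := 11 / 5 * S / (P + t - 1 - 2 * S) with hq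
    have hq0 : 0 ≤ q := by positivity
    have hq1 : q ≤ 77 / 50 := by
      rw [hq, div_le_iff₀ hden]
      nlinarith
    have key := WW_le_I x hx h R h0 h1 t ht0 q hq0 hq1
      (by rw [hq, ← hPdef, ← hS]; exact div_mul_cancel₀ _ hden.ne')
    refine key.trans ?_
    rw [← hPdef, ← hS]
    unfold bI
    nlinarith [mul_nonneg (by linarith : (0 : ℝ) ≤ P / 3 - S) (by linarith : (0 : ℝ) ≤ P / 3 - S),
      mul_nonneg (by linarith : (0 : ℝ) ≤ P / 3 - S) ht0,
      mul_nonneg (by linarith : (0 : ℝ) ≤ P / 3 - S) hP0,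
      mul_nonneg (by linarith : (0 : ℝ) ≤ P / 3 - S) hS0]
  · -- range II
    refine le_trans ?_ (le_max_right _ _)
    have htc : P - 1 ≤ 10 * t := by
      rcases le_or_gt P 200 with h3 | h3 <;> linarith
    have key := WW_le_II x hx.le hx1 h R h0 h1 t ht0 htc
    refine key.trans ?_
    rw [← hPdef, ← hS]
    unfold bII
    nlinarith [mul_nonneg (by linarith : (0 : ℝ) ≤ P / 3 - S) (by linarith : (0 : ℝ) ≤ P / 3 - S),
      mul_nonneg (by linarith : (0 : ℝ) ≤ P / 3 - S) ht0,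
      mul_nonneg (by linarith : (0 : ℝ) ≤ P / 3 - S) hP0,
      mul_nonneg (by linarith : (0 : ℝ) ≤ P / 3 - S) hS0,
      mul_nonneg (by linarith : (0 : ℝ) ≤ P / 3 - S) (by linarith : (0 : ℝ) ≤ t - 15 / 2)]

end K3
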