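import Pool.Agent.Helper46.K3.Basic

/-! # Sorting the doses, and counting triples of naturals -/

namespace K3

open Finset

set_option linter.unusedSectionVars false

variable {ι : Type*} [DecidableEq ι]

/-- `cnt` is invariant under relabelling -/
theorem cnt_map {κ : Type*} [DecidableEq κ] (c : ℝ) (k : ℕ) (h : ι → ℝ) (φ : κ ↪ ι)
    (T : Finset κ) : cnt c k h (T.map φ) = cnt c k (fun i => h (φ i)) T := by
  unfold cnt
  rw [powersetCard_map, filter_map, card_map]
  congr 1
  apply filter_congr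
  intro V _
  simp only [Function.comp_apply, RelEmbedding.coe_toEmbedding, mapEmbedding_apply, sum_map]

/-- `cnt` only depends on the doses on the set -/
theorem cnt_congr {c : ℝ} {k : ℕ} {h h' : ι → ℝ} {S : Finset ι} (H : ∀ i ∈ S, h i = h' i) :
    cnt c k h S = cnt c k h' S := by
  unfold cnt
  congr 1
  apply filter_congr
  intro V hV
  rw [sum_congr rfl (fun i hi => H i ((mem_powersetCard.1 hV).1 hi))]

/-- an enumeration of `S` in non-increasing order of dose -/
theorem exists_sorted (N : ℕ) (h : ι → ℝ) (S : Finset ι) (hc : S.card = N) :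
    ∃ e : Fin N ↪ ι, univ.map e = S ∧ Antitone (fun i => h (e i)) := by
  subst hc
  set e0 : Fin S.card ≃ S := S.equivFin.symm with he0
  set f : Fin S.card → ℝ := fun i => - h (e0 i : ι) with hf
  set σ := Tuple.sort f with hσ
  refine ⟨(σ.toEmbedding.trans e0.toEmbedding).trans (Function.Embedding.subtype _), ?_, ?_⟩
  · ext x
    simp only [mem_map, mem_univ, true_and, Function.Embedding.trans_apply,
      Equiv.coe_toEmbedding, Function.Embedding.subtype_apply]
    constructor
    · rintro ⟨a, rfl⟩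
      exact (e0 (σ a)).2
    · intro hx
      refine ⟨σ.symm (e0.symm ⟨x, hx⟩), ?_⟩
      simp
  · intro i j hij
    have := Tuple.monotone_sort f hij
    simp only [Function.comp_apply, hf] at this
    simp only [Function.Embedding.trans_apply, Equiv.coe_toEmbedding,
      Function.Embedding.subtype_apply]
    linarith

/-- sorting: the doses may be taken to be a non-increasing sequence `g 0, g 1, ...` -/
theorem sorted_nat (N : ℕ) (h : ι → ℝ) (S : Finset ι) (hc : S.card = N)
    (h0 : ∀ i ∈ S, 0 ≤ h i) :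
    ∃ g : ℕ → ℝ, (∀ c k, cnt c k h S = cnt c k g (range N)) ∧
      ∑ i ∈ range N, g i = ∑ i ∈ S, h i ∧ Antitone g ∧ (∀ i, 0 ≤ g i) ∧
      ∀ i, N ≤ i → g i = 0 := by
  obtain ⟨e, he, ha⟩ := exists_sorted N h S hc
  have hr : range N = (univ : Finset (Fin N)).map Fin.valEmbedding := by
    ext x
    simp only [mem_range, mem_map, mem_univ, true_and, Fin.valEmbedding_apply]
    constructor
    · intro hx
      exact ⟨⟨x, hx⟩, rfl⟩
    · rintro ⟨a, rfl⟩
      exact a.2
  set g : ℕ → ℝ := fun i => if hi : i < N then h (e ⟨i, hi⟩) else 0 with hg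
  have hge : ∀ i : Fin N, g i = h (e i) := by
    intro i
    simp [hg]
  have hmem : ∀ i : Fin N, e i ∈ S := by
    intro i
    rw [← he]
    exact mem_map_of_mem e (mem_univ i)
  refine ⟨g, ?_, ?_, ?_, ?_, ?_⟩
  · intro c k
    rw [hr, cnt_map, ← he, cnt_map]
    exact cnt_congr (fun i _ => (hge i).symm)
  · rw [hr, sum_map, ← he, sum_map]
    exact sum_congr rfl (fun i _ => hge i)
  · intro i j hij
    simp only [hg]
    by_cases hj : j < N
    · have hi : i < N := lt_of_le_of_lt hij hj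
      rw [dif_pos hj, dif_pos hi]
      exact ha (show (⟨i, hi⟩ : Fin N) ≤ ⟨j, hj⟩ from hij)
    · rw [dif_neg hj]
      by_cases hi : i < N
      · rw [dif_pos hi]
        exact h0 _ (hmem _)
      · rw [dif_neg hi]
  · intro i
    simp only [hg]
    by_cases hi : i < N
    · rw [dif_pos hi]
      exact h0 _ (hmem _)
    · rw [dif_neg hi]
  · intro i hi
    simp only [hg]
    rw [dif_neg (not_lt.2 hi)]

theorem sorted_Lam (N : ℕ) (h : ι → ℝ) (S : Finset ι) (hc : S.card = N)
    (h0 : ∀ i ∈ S, 0 ≤ h i) :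
    ∃ g : ℕ → ℝ, (∀ t, Lam h S t = Lam g (range N) t) ∧
      ∑ i ∈ range N, g i = ∑ i ∈ S, h i ∧ Antitone g ∧ (∀ i, 0 ≤ g i) ∧
      ∀ i, N ≤ i → g i = 0 := by
  obtain ⟨g, h1, h2, h3, h4, h5⟩ := sorted_nat N h S hc h0
  refine ⟨g, ?_, h2, h3, h4, h5⟩
  intro t
  unfold Lam
  rw [h1, h1, h1]

/-- triples of naturals of dose at least `c` -/
noncomputable def tri (c : ℝ) (g : ℕ → ℝ) (N : ℕ) : Finset (ℕ × ℕ × ℕ) :=
  (range N ×ˢ range N ×ˢ range N).filter
    (fun p => p.1 < p.2.1 ∧ p.2.1 < p.2.2 ∧ c ≤ g p.1 + g p.2.1 + g p.2.2)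

/-- pairs of naturals of dose at least `c` -/
noncomputable def prs (c : ℝ) (g : ℕ → ℝ) (N : ℕ) : Finset (ℕ × ℕ) :=
  (range N ×ˢ range N).filter (fun p => p.1 < p.2 ∧ c ≤ g p.1 + g p.2)

theorem sum_three {g : ℕ → ℝ} {a b d : ℕ} (hab : a < b) (hbd : b < d) :
    ∑ i ∈ ({a, b, d} : Finset ℕ), g i = g a + g b + g d := by
  rw [sum_insert, sum_pair hbd.ne, add_assoc]
  simp only [mem_insert, mem_singleton]
  omega

theorem card_three {a b d : ℕ} (hab : a < b) (hbd : b < d) :
    ({a, b, d} : Finset ℕ).card = 3 := by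
  rw [card_insert_of_notMem, card_pair hbd.ne]
  simp only [mem_insert, mem_singleton]
  omega

theorem cnt_three (c : ℝ) (g : ℕ → ℝ) (N : ℕ) : cnt c 3 g (range N) = (tri c g N).card := by
  symm
  unfold cnt
  apply card_bij (fun p _ => ({p.1, p.2.1, p.2.2} : Finset ℕ))
  · rintro ⟨a, b, d⟩ hp
    simp only [tri, mem_filter, mem_product, mem_range] at hp
    obtain ⟨⟨ha, hb, hd⟩, hab, hbd, hc⟩ := hp
    rw [mem_filter, mem_powersetCard]
    refine ⟨⟨?_, card_three hab hbd⟩, ?_⟩
    · intro x hx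
      simp only [mem_insert, mem_singleton] at hx
      rw [mem_range]
      omega
    · rw [sum_three hab hbd]
      exact hc
  · rintro ⟨a, b, d⟩ hp ⟨a', b', d'⟩ hp' heq
    simp only [tri, mem_filter, mem_product, mem_range] at hp hp'
    obtain ⟨_, hab, hbd, _⟩ := hp
    obtain ⟨_, hab', hbd', _⟩ := hp'
    simp only at heq
    have m1 : a ∈ ({a', b', d'} : Finset ℕ) := heq ▸ (by simp)
    have m2 : b ∈ ({a', b', d'} : Finset ℕ) := heq ▸ (by simp)
    have m3 : d ∈ ({a', b', d'} : Finset ℕ) := heq ▸ (by simp)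
    simp only [mem_insert, mem_singleton] at m1 m2 m3
    have : a = a' ∧ b = b' ∧ d = d' := by omega
    obtain ⟨rfl, rfl, rfl⟩ := this
    rfl
  · intro V hV
    rw [mem_filter, mem_powersetCard] at hV
    obtain ⟨⟨hVs, hVc⟩, hsum⟩ := hV
    have key : ∃ a b d, a < b ∧ b < d ∧ V = {a, b, d} := by
      obtain ⟨x, y, z, hxy, hxz, hyz, rfl⟩ := card_eq_three.1 hVc
      rcases lt_or_gt_of_ne hxy with h1 | h1 <;> rcases lt_or_gt_of_ne hxz with h2 | h2 <;>
        rcases lt_or_gt_of_ne hyz with h3 | h3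
      · exact ⟨x, y, z, h1, h3, rfl⟩
      · exact ⟨x, z, y, h2, h3, by ext w; simp only [mem_insert, mem_singleton]; tauto⟩
      · omega
      · exact ⟨z, x, y, h2, h1, by ext w; simp only [mem_insert, mem_singleton]; tauto⟩
      · exact ⟨y, x, z, h1, h2, by ext w; simp only [mem_insert, mem_singleton]; tauto⟩
      · omega
      · exact ⟨y, z, x, h3, h2, by ext w; simp only [mem_insert, mem_singleton]; tauto⟩
      · exact ⟨z, y, x, h3, h1, by ext w; simp only [mem_insert, mem_singleton]; tauto⟩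
    obtain ⟨a, b, d, hab, hbd, rfl⟩ := key
    refine ⟨(a, b, d), ?_, rfl⟩
    rw [sum_three hab hbd] at hsum
    have ha := mem_range.1 (hVs (show a ∈ ({a, b, d} : Finset ℕ) by simp))
    have hb := mem_range.1 (hVs (show b ∈ ({a, b, d} : Finset ℕ) by simp))
    have hd := mem_range.1 (hVs (show d ∈ ({a, b, d} : Finset ℕ) by simp))
    simp only [tri, mem_filter, mem_product, mem_range]
    exact ⟨⟨ha, hb, hd⟩, hab, hbd, hsum⟩

theorem cnt_two_range (c : ℝ) (g : ℕ → ℝ) (N : ℕ) : cnt c 2 g (range N) = (prs c g N).card := by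
  symm
  unfold cnt
  apply card_bij (fun p _ => ({p.1, p.2} : Finset ℕ))
  · rintro ⟨a, b⟩ hp
    simp only [prs, mem_filter, mem_product, mem_range] at hp
    obtain ⟨⟨ha, hb⟩, hab, hc⟩ := hp
    rw [mem_filter, mem_powersetCard]
    refine ⟨⟨?_, card_pair hab.ne⟩, ?_⟩
    · intro x hx
      simp only [mem_insert, mem_singleton] at hx
      rw [mem_range]
      omega
    · rw [sum_pair hab.ne]
      exact hc
  · rintro ⟨a, b⟩ hp ⟨a', b'⟩ hp' heq
    simp only [prs, mem_filter, mem_product, mem_range] at hp hp'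
    obtain ⟨_, hab, _⟩ := hp
    obtain ⟨_, hab', _⟩ := hp'
    simp only at heq
    have m1 : a ∈ ({a', b'} : Finset ℕ) := heq ▸ (by simp)
    have m2 : b ∈ ({a', b'} : Finset ℕ) := heq ▸ (by simp)
    simp only [mem_insert, mem_singleton] at m1 m2
    have : a = a' ∧ b = b' := by omega
    obtain ⟨rfl, rfl⟩ := this
    rfl
  · intro V hV
    rw [mem_filter, mem_powersetCard] at hV
    obtain ⟨⟨hVs, hVc⟩, hsum⟩ := hV
    have key : ∃ a b, a < b ∧ V = {a, b} := by
      obtain ⟨x, y, hxy, rfl⟩ := card_eq_two.1 hVc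
      rcases lt_or_gt_of_ne hxy with h1 | h1
      · exact ⟨x, y, h1, rfl⟩
      · exact ⟨y, x, h1, by ext w; simp only [mem_insert, mem_singleton]; tauto⟩
    obtain ⟨a, b, hab, rfl⟩ := key
    refine ⟨(a, b), ?_, rfl⟩
    rw [sum_pair hab.ne] at hsum
    have ha := mem_range.1 (hVs (show a ∈ ({a, b} : Finset ℕ) by simp))
    have hb := mem_range.1 (hVs (show b ∈ ({a, b} : Finset ℕ) by simp))
    simp only [prs, mem_filter, mem_product, mem_range]
    exact ⟨⟨ha, hb⟩, hab, hsum⟩

theorem cnt_one' (c : ℝ) (g : ℕ → ℝ) (N : ℕ) :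
    cnt c 1 g (range N) = ((range N).filter (fun i => c ≤ g i)).card := by
  symm
  unfold cnt
  apply card_bij (fun p _ => ({p} : Finset ℕ))
  · intro a hp
    rw [mem_filter] at hp
    rw [mem_filter, mem_powersetCard, singleton_subset_iff, card_singleton, sum_singleton]
    exact ⟨⟨hp.1, rfl⟩, hp.2⟩
  · intro a _ b _ heq
    exact singleton_injective heq
  · intro V hV
    rw [mem_filter, mem_powersetCard] at hV
    obtain ⟨⟨hVs, hVc⟩, hsum⟩ := hV
    obtain ⟨a, rfl⟩ := card_eq_one.1 hVc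
    rw [sum_singleton] at hsum
    exact ⟨a, mem_filter.2 ⟨hVs (mem_singleton_self a), hsum⟩, rfl⟩

end K3
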