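import Pool.Agent.Helper46.K3.Basic
import Pool.Agent.Helper46.K3.RowB
import Pool.Agent.Helper46.K3.NumC
import Pool.Agent.Helper46.K3.NumS

namespace K3

open Finset

set_option linter.unusedSectionVars false

variable {ι : Type*} [DecidableEq ι]

/-- normalisation: the least dose of a lethal pair may be taken to be exactly one -/
theorem exact_pair (h : ι → ℝ) (S : Finset ι) (N : ℕ) (hN : S.card = N) (h0 : ∀ i ∈ S, 0 ≤ h i)
    (hsum : 3 * ∑ i ∈ S, h i < (N : ℝ) + 1) (h1 : ∀ i ∈ S, h i < 1)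
    (hex : ∃ u ∈ S, ∃ v ∈ S, u ≠ v ∧ 1 ≤ h u + h v) :
    ∃ h' : ι → ℝ, (∀ i ∈ S, 0 ≤ h' i) ∧ 3 * ∑ i ∈ S, h' i < (N : ℝ) + 1 ∧
      (∀ i ∈ S, h' i < 1) ∧ (∃ u ∈ S, ∃ v ∈ S, u ≠ v ∧ h' u + h' v = 1) ∧
      ∀ t : ℝ, 1 ≤ t → Lam h S t ≤ Lam h' S t := by
  classical
  set Q := (S ×ˢ S).filter (fun p => p.1 ≠ p.2 ∧ 1 ≤ h p.1 + h p.2) with hQ
  have hne : Q.Nonempty := by
    obtain ⟨u, hu, v, hv, huv, h2⟩ := hex
    exact ⟨(u, v), by rw [hQ, mem_filter, mem_product]; exact ⟨⟨hu, hv⟩, huv, h2⟩⟩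
  obtain ⟨⟨u, v⟩, hp, hmin⟩ := exists_min_image Q (fun p => h p.1 + h p.2) hne
  rw [hQ, mem_filter, mem_product] at hp
  obtain ⟨⟨hu, hv⟩, huv, h2⟩ := hp
  simp only at hu hv huv h2 hmin
  set d := h u + h v - 1 with hd
  have hd0 : 0 ≤ d := by linarith
  have hD : 0 < 1 + 3 * d := by linarith
  set l := 1 / (1 + 3 * d) with hl
  have hl0 : 0 < l := by positivity
  have hlD : l * (1 + 3 * d) = 1 := by
    rw [hl]; field_simp
  have hl1 : l ≤ 1 := by
    rw [hl, div_le_one hD]; linarith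
  have hS : ∀ V : Finset ι, ∑ i ∈ V, ((1 - l) / 3 + l * h i) = V.card * ((1 - l) / 3)
      + l * ∑ i ∈ V, h i := by
    intro V
    rw [sum_add_distrib, sum_const, nsmul_eq_mul, mul_sum]
  refine ⟨fun i => (1 - l) / 3 + l * h i, ?_, ?_, ?_, ⟨u, hu, v, hv, huv, ?_⟩, ?_⟩
  · intro i hi
    have := mul_nonneg hl0.le (h0 i hi)
    linarith
  · rw [hS, hN]
    nlinarith
  · intro i hi
    have := mul_lt_mul_of_pos_left (h1 i hi) hl0
    linarith
  · have : h u + h v = 1 + d := by rw [hd]; ring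
    nlinarith
  · intro t ht
    apply Lam_mono_of _ (by linarith) (C2_nonneg ht)
    intro V hV hc hV1
    rw [hS]
    rcases Nat.lt_or_ge V.card 2 with hc2 | hc2
    · exfalso
      rcases Nat.lt_or_ge V.card 1 with hc1 | hc1
      · have : V = ∅ := card_eq_zero.1 (by omega)
        subst this
        simp at hV1
        linarith
      · obtain ⟨i, rfl⟩ := card_eq_one.1 (show V.card = 1 by omega)
        rw [sum_singleton] at hV1
        linarith [h1 i (hV (mem_singleton_self i))]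
    · rcases Nat.lt_or_ge V.card 3 with hc3 | hc3
      · obtain ⟨i, j, hij, rfl⟩ := card_eq_two.1 (show V.card = 2 by omega)
        rw [sum_pair hij] at hV1 ⊢
        rw [card_pair hij]
        have hm := hmin (i, j) (by
          rw [hQ, mem_filter, mem_product]
          exact ⟨⟨hV (by simp), hV (by simp)⟩, hij, hV1⟩)
        simp only at hm
        have : 1 + d ≤ h i + h j := by rw [hd]; linarith
        push_cast
        nlinarith
      · have : V.card = 3 := by omega
        rw [this]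
        push_cast
        nlinarith

/-- the claim for `N` elements of total dose less than `(N + 1) / 3` and `t` zeros -/
def PP (ι : Type*) [DecidableEq ι] (N : ℕ) (t : ℝ) : Prop :=
  ∀ (S : Finset ι) (h : ι → ℝ), (∀ i ∈ S, 0 ≤ h i) → 3 * ∑ i ∈ S, h i < (N : ℝ) + 1 →
    S.card = N → Lam h S t ≤ FF N t

theorem PP_base (N : ℕ) (hN : N ≤ 2) (t : ℝ) : PP ι N t := by
  intro S h h0 hs hc
  have hN' : (N : ℝ) ≤ 2 := by exact_mod_cast hN
  have hz : ∀ k, cnt 1 k h S = 0 := by
    intro k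
    apply cnt_eq_zero
    intro V hV _
    have := sum_le_sum_of_subset_of_nonneg hV (fun i hi _ => h0 i hi)
    linarith
  have hL : Lam h S t = 0 := by
    unfold Lam
    rw [hz, hz, hz]
    simp
  rw [hL]
  refine le_trans ?_ (le_max_left _ _)
  unfold C3
  interval_cases N <;> simp

theorem Om_sub {N : ℕ} (hN : 3 ≤ N) {t : ℝ} (ht : Om N t) : Om (N - 3) (t - 1 / 5) := by
  obtain ⟨M, rfl⟩ := Nat.exists_eq_add_of_le hN
  obtain ⟨h1, h2⟩ := ht
  rw [show 3 + M - 3 = M by omega]
  push_cast at h1 h2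
  constructor <;> linarith

theorem Om_sub' {N : ℕ} (hN : 3 ≤ N) {t : ℝ} (ht : Om N t) : Om (N - 3) (t + 2) := by
  obtain ⟨M, rfl⟩ := Nat.exists_eq_add_of_le hN
  obtain ⟨h1, h2⟩ := ht
  rw [show 3 + M - 3 = M by omega]
  push_cast at h1 h2
  constructor <;> linarith

theorem Om_pos {N : ℕ} {t : ℝ} (ht : Om N t) : 15 / 2 ≤ t := by
  have := ht.1
  have : (0 : ℝ) ≤ N := Nat.cast_nonneg N
  linarith

theorem FF_sub (N : ℕ) (hN : 3 ≤ N) (t : ℝ) :
    FF (N - 3) t = max (C3 ((N : ℝ) - 3)) (AA ((N : ℝ) - 3 + t) (((N / 3 : ℕ) : ℝ) - 1)) := by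
  unfold FF
  rw [show (N - 3) / 3 = N / 3 - 1 by omega, Nat.cast_sub hN, Nat.cast_sub (by omega)]
  simp

theorem PP_step (N : ℕ) (hN : 3 ≤ N) (t : ℝ) (ht : Om N t)
    (IH : ∀ t', Om (N - 3) t' → PP ι (N - 3) t') : PP ι N t := by
  intro S h h0 hs hc
  have ht1 : 15 / 2 ≤ t := Om_pos ht
  have hNr : (3 : ℝ) ≤ N := by exact_mod_cast hN
  -- no single
  by_cases hsing : ∃ i ∈ S, 1 ≤ h i
  · obtain ⟨z, hz, hz1⟩ := hsing
    set R := S.erase z with hR
    have hRc : R.card = N - 1 := by rw [hR, card_erase_of_mem hz, hc]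
    have hRc' : (R.card : ℝ) = (N : ℝ) - 1 := by rw [hRc, Nat.cast_sub (by omega)]; simp
    have hins : insert z R = S := insert_erase hz
    have hsR : h z + ∑ i ∈ R, h i = ∑ i ∈ S, h i := add_sum_erase S h hz
    have hR0 : ∀ i ∈ R, 0 ≤ h i := fun i hi => h0 i (mem_of_mem_erase hi)
    have hL : Lam h S t = C2 ((N : ℝ) - 1 + t) + Lam h R t := by
      rw [← hins, Lam_insert_single h (notMem_erase z S) hz1 hR0, hRc']
    obtain ⟨h1, z1, hz1', h10, h1s, h1L⟩ := reduce h R hR0 (by rw [hRc']; linarith)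
    have hc1 : (R.erase z1).card = N - 2 := by rw [card_erase_of_mem hz1', hRc]; omega
    have hc1' : ((R.erase z1).card : ℝ) = (N : ℝ) - 2 := by
      rw [hc1, Nat.cast_sub (by omega)]; simp
    obtain ⟨h2, z2, hz2', h20, h2s, h2L⟩ := reduce h1 (R.erase z1) h10 (by rw [hc1']; linarith)
    have hc2 : ((R.erase z1).erase z2).card = N - 3 := by
      rw [card_erase_of_mem hz2', hc1]; omega
    have hIH := IH (t + 2) (Om_sub' hN ht) ((R.erase z1).erase z2) h2 h20
      (by rw [Nat.cast_sub hN]; push_cast; linarith) hc2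
    rw [FF_sub N hN] at hIH
    have e1 := h1L t (by linarith) (C2_nonneg (by linarith))
    have e2 := h2L (t + 1) (by linarith) (C2_nonneg (by linarith))
    have e3 := condS N hN t ht
    rw [show t + 1 + 1 = t + 2 by ring] at e2
    rw [hL]
    linarith
  push Not at hsing
  have hs1 : ∀ i ∈ S, h i < 1 := hsing
  have hcnt1 : ∀ (g : ι → ℝ) (V : Finset ι), (∀ i ∈ V, g i < 1) → cnt 1 1 g V = 0 := by
    intro g V hg
    apply cnt_eq_zero
    intro W hW hWc
    obtain ⟨i, rfl⟩ := card_eq_one.1 hWc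
    rw [sum_singleton]
    exact hg i (hW (mem_singleton_self i))
  by_cases hpair : ∃ u ∈ S, ∃ v ∈ S, u ≠ v ∧ 1 ≤ h u + h v
  · obtain ⟨g, g0, gs, g1, ⟨u, hu, v, hv, huv, guv⟩, gL⟩ := exact_pair h S N hc h0 hs hs1 hpair
    refine (gL t (by linarith)).trans ?_
    -- order the pair
    wlog hle : g v ≤ g u generalizing u v
    · exact this v hv u hu huv.symm (by rw [add_comm]; exact guv) (by linarith)
    set R := (S.erase u).erase v with hR
    have hvS : v ∈ S.erase u := mem_erase.2 ⟨huv.symm, hv⟩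
    have hins1 : insert v R = S.erase u := insert_erase hvS
    have hins : insert u (insert v R) = S := by rw [hins1]; exact insert_erase hu
    have hRc : R.card = N - 2 := by
      rw [hR, card_erase_of_mem hvS, card_erase_of_mem hu, hc]; omega
    have hRc' : (R.card : ℝ) = (N : ℝ) - 2 := by rw [hRc, Nat.cast_sub (by omega)]; simp
    have hsS : g u + (g v + ∑ i ∈ R, g i) = ∑ i ∈ S, g i := by
      rw [hR, add_sum_erase _ g hvS, add_sum_erase _ g hu]
    have hRS : R ⊆ S := (erase_subset _ _).trans (erase_subset _ _)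
    have hR0 : ∀ i ∈ R, 0 ≤ g i := fun i hi => g0 i (hRS hi)
    have hR1 : ∀ i ∈ R, g i < 1 := fun i hi => g1 i (hRS hi)
    have hvR : v ∉ R := notMem_erase v _
    have huR : u ∉ insert v R := by rw [hins1]; exact notMem_erase u S
    have hx0 : 0 < g v := by linarith [g1 u hu]
    have hx1 : g v ≤ 1 / 2 := by linarith
    have hR3 : 3 * ∑ i ∈ R, g i < (N : ℝ) - 2 := by linarith
    have hL := Lam_insert_pair g hvR huR guv hR0 (g1 u hu) (g1 v hv) (hcnt1 g R hR1) t
    rw [hins] at hL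
    have hW := WW_le (g v) hx0 hx1 g R hR0 hR1 (N - 2) hRc
      (by rw [Nat.cast_sub (by omega)]; push_cast; linarith) t
      (by rw [show N - 2 + 2 = N by omega]; exact ht)
    rw [Nat.cast_sub (by omega)] at hW
    push_cast at hW
    -- induction for R
    obtain ⟨g2, z2, hz2, g20, g2s, g2L⟩ := reduce g R hR0 (by rw [hRc']; exact hR3)
    have hc2 : (R.erase z2).card = N - 3 := by rw [card_erase_of_mem hz2, hRc]; omega
    have hIH := IH (t - 1 / 5) (Om_sub hN ht) (R.erase z2) g2 g20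
      (by rw [Nat.cast_sub hN]; push_cast; linarith) hc2
    rw [FF_sub N hN] at hIH
    have e1 := g2L (t - 1 / 5 - 1) (by linarith) (C2_nonneg (by linarith))
    rw [show t - 1 / 5 - 1 + 1 = t - 1 / 5 by ring] at e1
    have e2 : Lam g R (t - 1 / 5 - 1) = cnt 1 3 g R + (t - 1 / 5 - 1) * cnt 1 2 g R := by
      unfold Lam
      rw [hcnt1 g R hR1]
      simp
    rw [e2] at e1
    have hfin : ((N : ℝ) - 2 + t) + max (bI ((N : ℝ) - 2) t) (bII ((N : ℝ) - 2) t)
        + max (C3 ((N : ℝ) - 3)) (AA ((N : ℝ) - 3 + (t - 1 / 5)) (((N / 3 : ℕ) : ℝ) - 1))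
        ≤ FF N t := by
      rcases le_total (AA ((N : ℝ) - 3 + (t - 1 / 5)) (((N / 3 : ℕ) : ℝ) - 1))
        (C3 ((N : ℝ) - 3)) with hm | hm
      · rw [max_eq_left hm]
        rcases le_total t (17 * (N : ℝ) / 100) with h17 | h17
        · have := condC N hN t ht h17
          refine le_trans ?_ (le_max_left _ _)
          linarith
        · have h3 := condUp N hN t ht h17
          have := condA N hN t ht
          refine le_trans ?_ (le_max_right _ _)
          linarith
      · rw [max_eq_right hm]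
        have := condA N hN t ht
        refine le_trans ?_ (le_max_right _ _)
        linarith
    unfold WW at hW
    rw [hL, hRc']
    linarith
  · push Not at hpair
    have hc1 : cnt 1 1 h S = 0 := hcnt1 h S hs1
    have hc2 : cnt 1 2 h S = 0 := by
      apply cnt_eq_zero
      intro V hV hVc
      obtain ⟨i, j, hij, rfl⟩ := card_eq_two.1 hVc
      rw [sum_pair hij]
      exact hpair i (hV (by simp)) j (hV (by simp)) hij
    have hc3 : (cnt 1 3 h S : ℝ) ≤ C3 N := by
      rw [← C3_nat, ← hc]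
      exact_mod_cast cnt_le_choose 1 3 h S
    unfold Lam
    rw [hc1, hc2]
    refine le_trans ?_ (le_max_left _ _)
    simpa using hc3

theorem PP_main (N : ℕ) : ∀ t, Om N t → PP ι N t := by
  induction N using Nat.strong_induction_on with
  | _ N ih =>
    intro t ht
    rcases Nat.lt_or_ge N 3 with h | h
    · exact PP_base N (by omega) t
    · exact PP_step N h t ht (fun t' ht' => ih (N - 3) (by omega) t' ht')

end K3
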